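import Mathlib
import Pool.Agent.Lib.P4a7640Y.Par
import Pool.Agent.Lib.P4a7640Z.Par

/-!
# Real frequencies: definitions
-/

open Filter MeasureTheory

namespace Pool.Agent.Lib.P4a7640K

open Pool.Agent.Lib.P4a7640 Pool.Agent.Lib.P4a7640M Pool.Agent.Lib.P4a7640Y Pool.Agent.Lib.P4a7640Z

open Classical in
/-- the signs for real frequencies: `-1` if `α a_p` lies in `A_p` modulo one, and `1` otherwise -/
noncomputable def xr (A : ℕ → Set ℝ) (a : ℕ → ℝ) (α : ℝ) : SS :=
  fun p => if Int.fract (α * a p) ∈ A p then -1 else 1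

open Classical in
/-- the signs for integer frequencies and given phases -/
noncomputable def xc (A : ℕ → Set ℝ) (b : ℕ → ℕ) (θ : ℕ → ℝ) (α : ℝ) : SS :=
  fun p => if Int.fract (α * b p + θ p) ∈ A p then -1 else 1

/-- the signs in which the fractional part of the frequency is paired with the fixed number `t` -/
noncomputable def xi (A : ℕ → Set ℝ) (a : ℕ → ℝ) (t α : ℝ) : SS :=
  xc A (fun p => ⌊a p⌋₊) (fun p => t * Int.fract (a p)) α

/-- the points that divide `[u, u + 1]` into `L` equal parts -/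
noncomputable def cut (u : ℝ) (L i : ℕ) : ℝ := u + i / L

open Classical in
/-- every interval `[x, x + 1)` contains few of the `a_p`, `p ≤ y` -/
def Cnt (K κ : ℝ) (a : ℕ → ℝ) : Prop := ∀ x y : ℝ, 0 ≤ x → 1 ≤ y →
  (((Finset.Icc 1 ⌊y⌋₊).filter (fun p => p.Prime ∧ x ≤ a p ∧ a p < x + 1)).card : ℝ) ≤ K * y ^ (1 - κ)

open Classical in
/-- every integer is the frequency of few primes `p ≤ y` -/
def CntN (K κ : ℝ) (b : ℕ → ℕ) : Prop := ∀ (n : ℕ) (y : ℝ), 1 ≤ y →
  (((Finset.Icc 1 ⌊y⌋₊).filter (fun p => p.Prime ∧ b p = n)).card : ℝ) ≤ K * y ^ (1 - κ)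

/-- the bound for the ratios in the covariance estimate -/
noncomputable def RK (κ : ℝ) (N : ℕ) : ℕ := ⌈Real.exp (κ * lam N / 3)⌉₊

end Pool.Agent.Lib.P4a7640K
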