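import Mathlib
import Pool.Agent.Lib.P4a7640K.Par
import Pool.Agent.Lib.P4a7640Y.Tail
import Pool.Agent.Lib.P4a7640Y.Pair
import Pool.Agent.Lib.P4a7640M.Osc

/-!
# Real frequencies: comparison with integer frequencies
-/

open Filter Topology MeasureTheory

namespace Pool.Agent.Lib.P4a7640K

open Pool.Agent.Lib.P4a7640 Pool.Agent.Lib.P4a7640M Pool.Agent.Lib.P4a7640Y Pool.Agent.Lib.P4a7640Z

open Classical in
/-- the integer part, increased by one on an upper set of fractional parts -/
noncomputable def FW (W : Set ℝ) (t : ℝ) : ℝ := ⌊t⌋ + if Int.fract t ∈ W then 1 else 0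

lemma FW_lower (W : Set ℝ) (t : ℝ) : t - 1 ≤ FW W t := by
  unfold FW
  have h1 := (Int.sub_one_lt_floor t).le
  split_ifs <;> linarith

lemma FW_upper (W : Set ℝ) (t : ℝ) : FW W t ≤ t + 1 := by
  unfold FW
  have h1 := Int.floor_le t
  split_ifs <;> linarith

lemma FW_mono {W : Set ℝ} (hW : IsUpperSet W) : Monotone (FW W) := by
  intro x y hxy
  have h1 : ⌊x⌋ ≤ ⌊y⌋ := Int.floor_mono hxy
  rcases h1.eq_or_lt with h2 | h2
  · unfold FW
    rw [h2]
    have h3 : Int.fract x ≤ Int.fract y := by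
      unfold Int.fract
      rw [h2]
      linarith
    by_cases h4 : Int.fract x ∈ W
    · rw [if_pos h4, if_pos (hW h3 h4)]
    · rw [if_neg h4]
      split_ifs <;> linarith
  · have h3 : (⌊x⌋ : ℝ) + 1 ≤ ⌊y⌋ := by exact_mod_cast h2
    unfold FW
    split_ifs <;> linarith

/-- the shift of a monotone function -/
lemma shift_mono {G : ℝ → ℝ} (hG : Monotone G) {δ : ℝ} (hδ : 0 ≤ δ) (u : ℝ) :
    ∫ α in u..(u + 1), (G α - G (α - δ)) ≤ δ * (G (u + 1) - G (u - δ)) := by
  have hi : ∀ a b : ℝ, IntervalIntegrable G volume a b := fun a b => hG.intervalIntegrable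
  have hs : ∀ a b : ℝ, IntervalIntegrable (fun α => G (α - δ)) volume a b := fun a b =>
    Monotone.intervalIntegrable (fun x y hxy => hG (by linarith))
  rw [intervalIntegral.integral_sub (hi _ _) (hs _ _),
    intervalIntegral.integral_comp_sub_right (fun x => G x) δ]
  have h1 : ∫ x in u..(u + 1), G x = (∫ x in u..(u + 1 - δ), G x) + ∫ x in (u + 1 - δ)..(u + 1), G x :=
    (intervalIntegral.integral_add_adjacent_intervals (hi _ _) (hi _ _)).symm
  have h2 : ∫ x in (u - δ)..(u + 1 - δ), G x =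
      (∫ x in (u - δ)..u, G x) + ∫ x in u..(u + 1 - δ), G x :=
    (intervalIntegral.integral_add_adjacent_intervals (hi _ _) (hi _ _)).symm
  have h3 : ∫ x in (u + 1 - δ)..(u + 1), G x ≤ ∫ _x in (u + 1 - δ)..(u + 1), G (u + 1) := by
    refine intervalIntegral.integral_mono_on (by linarith) (hi _ _) intervalIntegrable_const ?_
    intro x hx
    exact hG hx.2
  have h4 : ∫ _x in (u - δ)..u, G (u - δ) ≤ ∫ x in (u - δ)..u, G x := by
    refine intervalIntegral.integral_mono_on (by linarith) intervalIntegrable_const (hi _ _) ?_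
    intro x hx
    exact hG hx.1
  rw [intervalIntegral.integral_const, smul_eq_mul] at h3 h4
  have h5 : (u + 1 - (u + 1 - δ)) * G (u + 1) = δ * G (u + 1) := by ring
  have h6 : (u - (u - δ)) * G (u - δ) = δ * G (u - δ) := by ring
  rw [h5] at h3
  rw [h6] at h4
  rw [h1, h2]
  linarith

lemma cut_succ (u : ℝ) {L : ℕ} (hL : 0 < L) (i : ℕ) : cut u L (i + 1) = cut u L i + 1 / L := by
  unfold cut
  have : (0:ℝ) < L := by exact_mod_cast hL
  push_cast
  field_simp
  ring

lemma cut_zero (u : ℝ) (L : ℕ) : cut u L 0 = u := by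
  unfold cut
  simp

lemma cut_last (u : ℝ) {L : ℕ} (hL : 0 < L) : cut u L L = u + 1 := by
  unfold cut
  have : (L:ℝ) ≠ 0 := by exact_mod_cast hL.ne'
  rw [div_self this]

lemma cut_le (u : ℝ) {L : ℕ} (hL : 0 < L) (i : ℕ) : cut u L i ≤ cut u L (i + 1) := by
  rw [cut_succ u hL]
  have : (0:ℝ) < L := by exact_mod_cast hL
  have : 0 < 1 / (L:ℝ) := by positivity
  linarith

/-- the comparison for one monotone function -/
lemma cmp_mono {W : Set ℝ} (hW : IsUpperSet W) {a : ℝ} (ha : 0 ≤ a) (u : ℝ) {L : ℕ} (hL : 0 < L) :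
    ∃ D : ℕ → ℝ → ℝ, (∀ i, IntervalIntegrable (D i) volume (cut u L i) (cut u L (i + 1))) ∧
      (∀ i, ∀ α, cut u L i ≤ α → α ≤ cut u L (i + 1) →
        FW W (α * a) - FW W (α * (⌊a⌋₊ : ℝ) + cut u L i * Int.fract a) ≤ D i α) ∧
      ∑ i ∈ Finset.range L, ∫ α in (cut u L i)..(cut u L (i + 1)), D i α ≤ 4 / L := by
  have hL0 : (0:ℝ) < L := by exact_mod_cast hL
  have hF := FW_mono hW
  have hL1 : 1 / (L:ℝ) ≤ 1 := by
    rw [div_le_one hL0]
    exact_mod_cast hL
  have hf0 := Int.fract_nonneg a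
  have hf1 := (Int.fract_lt_one a).le
  have hfl : a = (⌊a⌋₊ : ℝ) + Int.fract a := by
    rw [natCast_floor_eq_intCast_floor ha]
    exact (Int.floor_add_fract a).symm
  rcases le_or_gt 1 a with h1 | h1
  · -- `a ≥ 1`
    have ha0 : 0 < a := by linarith
    refine ⟨fun _ α => FW W (α * a) - FW W ((α - 1 / (a * L)) * a), ?_, ?_, ?_⟩
    · intro i
      refine IntervalIntegrable.sub ?_ ?_
      · exact Monotone.intervalIntegrable fun x y hxy => hF (mul_le_mul_of_nonneg_right hxy ha)
      · exact Monotone.intervalIntegrable fun x y hxy => hF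
          (mul_le_mul_of_nonneg_right (by linarith) ha)
    · intro i α h2 h3
      have h4 : FW W ((α - 1 / (a * L)) * a) ≤
          FW W (α * (⌊a⌋₊ : ℝ) + cut u L i * Int.fract a) := by
        apply hF
        rw [cut_succ u hL] at h3
        have e1 : (α - 1 / (a * L)) * a = α * a - 1 / L := by
          field_simp
        have e2 : α * a = α * (⌊a⌋₊ : ℝ) + α * Int.fract a := by
          conv_lhs => rw [hfl]
          ring
        rw [e1, e2]
        nlinarith
      linarith
    · have hadj : ∑ i ∈ Finset.range L, ∫ α in (cut u L i)..(cut u L (i + 1)),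
          (FW W (α * a) - FW W ((α - 1 / (a * L)) * a)) =
          ∫ α in u..(u + 1), (FW W (α * a) - FW W ((α - 1 / (a * L)) * a)) := by
        rw [intervalIntegral.sum_integral_adjacent_intervals]
        · rw [cut_zero, cut_last u hL]
        · intro i _
          refine IntervalIntegrable.sub ?_ ?_
          · exact Monotone.intervalIntegrable fun x y hxy => hF (mul_le_mul_of_nonneg_right hxy ha)
          · exact Monotone.intervalIntegrable fun x y hxy => hF
              (mul_le_mul_of_nonneg_right (by linarith) ha)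
      rw [hadj]
      have hG : Monotone (fun α => FW W (α * a)) := fun x y hxy =>
        hF (mul_le_mul_of_nonneg_right hxy ha)
      refine (shift_mono hG (δ := 1 / (a * L)) (by positivity) u).trans ?_
      have e1 := FW_upper W ((u + 1) * a)
      have e2 := FW_lower W ((u - 1 / (a * L)) * a)
      have e3 : (u - 1 / (a * L)) * a = u * a - 1 / L := by
        field_simp
      rw [e3] at e2
      have e4 : FW W ((u + 1) * a) - FW W ((u - 1 / (a * L)) * a) ≤ 4 * a := by
        rw [e3]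
        linarith
      calc 1 / (a * L) * (FW W ((u + 1) * a) - FW W ((u - 1 / (a * L)) * a))
          ≤ 1 / (a * L) * (4 * a) := mul_le_mul_of_nonneg_left e4 (by positivity)
        _ = 4 / L := by field_simp
  · -- `a < 1`
    refine ⟨fun i _ => FW W (cut u L (i + 1) * a) - FW W (cut u L i * a), ?_, ?_, ?_⟩
    · intro i
      exact intervalIntegrable_const
    · intro i α h2 h3
      have e1 : (⌊a⌋₊ : ℝ) = 0 := by
        rw [Nat.floor_eq_zero.2 h1, Nat.cast_zero]
      have e2 : Int.fract a = a := by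
        rw [e1, zero_add] at hfl
        exact hfl.symm
      rw [e1, e2, mul_zero, zero_add]
      have := hF (mul_le_mul_of_nonneg_right h3 ha)
      linarith
    · have e3 : ∀ i ∈ Finset.range L, ∫ _α in (cut u L i)..(cut u L (i + 1)),
          (FW W (cut u L (i + 1) * a) - FW W (cut u L i * a)) =
          1 / L * (FW W (cut u L (i + 1) * a) - FW W (cut u L i * a)) := by
        intro i _
        rw [intervalIntegral.integral_const, smul_eq_mul, cut_succ u hL]
        ring
      rw [Finset.sum_congr rfl e3, ← Finset.mul_sum,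
        Finset.sum_range_sub (fun i => FW W (cut u L i * a)), cut_zero, cut_last u hL]
      have e4 := FW_upper W ((u + 1) * a)
      have e5 := FW_lower W (u * a)
      have e6 : FW W ((u + 1) * a) - FW W (u * a) ≤ 4 := by linarith
      calc 1 / (L:ℝ) * (FW W ((u + 1) * a) - FW W (u * a)) ≤ 1 / L * 4 :=
            mul_le_mul_of_nonneg_left e6 (by positivity)
        _ = 4 / L := by ring

/-- the upper closure -/
def upC (J : Set ℝ) : Set ℝ := {x | ∃ j ∈ J, j ≤ x}

lemma upC_upper (J : Set ℝ) : IsUpperSet (upC J) := by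
  rintro x y hxy ⟨j, hj, hjx⟩
  exact ⟨j, hj, hjx.trans hxy⟩

lemma upC_diff_upper {J : Set ℝ} (hJ : J.OrdConnected) : IsUpperSet (upC J \ J) := by
  rintro x y hxy ⟨⟨j, hj, hjx⟩, hx⟩
  refine ⟨⟨j, hj, hjx.trans hxy⟩, fun hy => hx ?_⟩
  exact hJ.out hj hy ⟨hjx, hxy⟩

open Classical in
/-- the indicator of an interval is a difference -/
lemma ind_eq (J : Set ℝ) (t : ℝ) :
    (if Int.fract t ∈ J then (1:ℝ) else 0) = FW (upC J) t - FW (upC J \ J) t := by
  unfold FW
  by_cases h : Int.fract t ∈ J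
  · have h1 : Int.fract t ∈ upC J := ⟨_, h, le_refl _⟩
    have h2 : Int.fract t ∉ upC J \ J := fun h3 => h3.2 h
    rw [if_pos h, if_pos h1, if_neg h2]
    ring
  · by_cases h1 : Int.fract t ∈ upC J
    · have h2 : Int.fract t ∈ upC J \ J := ⟨h1, h⟩
      rw [if_neg h, if_pos h1, if_pos h2]
      ring
    · have h2 : Int.fract t ∉ upC J \ J := fun h3 => h1 h3.1
      rw [if_neg h, if_neg h1, if_neg h2]
      ring

open Classical in
/-- `phi` for a union of intervals -/
lemma phi_sub_le (s : Finset (Set ℝ)) (x y : ℝ) :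
    |phi (⋃ J ∈ s, J) x - phi (⋃ J ∈ s, J) y| ≤
      2 * ∑ J ∈ s, |(if Int.fract x ∈ J then (1:ℝ) else 0) - (if Int.fract y ∈ J then (1:ℝ) else 0)| := by
  have hnn : ∀ J ∈ s, 0 ≤ |(if Int.fract x ∈ J then (1:ℝ) else 0) -
      (if Int.fract y ∈ J then (1:ℝ) else 0)| := fun J _ => abs_nonneg _
  have hmem : ∀ z : ℝ, z ∈ (⋃ J ∈ s, J) ↔ ∃ J ∈ s, z ∈ J := by
    intro z
    simp
  have hkey : ∀ J ∈ s, |(if Int.fract x ∈ J then (1:ℝ) else 0) -
      (if Int.fract y ∈ J then (1:ℝ) else 0)| = 1 →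
      |phi (⋃ J ∈ s, J) x - phi (⋃ J ∈ s, J) y| ≤
      2 * ∑ J ∈ s, |(if Int.fract x ∈ J then (1:ℝ) else 0) - (if Int.fract y ∈ J then (1:ℝ) else 0)| := by
    intro J hJ h1
    have h2 := Finset.single_le_sum hnn hJ
    rw [h1] at h2
    have h3 : |phi (⋃ J ∈ s, J) x - phi (⋃ J ∈ s, J) y| ≤ 2 := by
      calc _ ≤ |phi (⋃ J ∈ s, J) x| + |phi (⋃ J ∈ s, J) y| := abs_sub _ _
        _ = 2 := by rw [abs_phi, abs_phi]; norm_num
    linarith
  by_cases hx : Int.fract x ∈ ⋃ J ∈ s, J
  · by_cases hy : Int.fract y ∈ ⋃ J ∈ s, J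
    · unfold phi
      rw [if_pos hx, if_pos hy, sub_self, abs_zero]
      have := Finset.sum_nonneg hnn
      positivity
    · obtain ⟨J, hJ, hxJ⟩ := (hmem _).1 hx
      have hyJ : Int.fract y ∉ J := fun h => hy ((hmem _).2 ⟨J, hJ, h⟩)
      apply hkey J hJ
      rw [if_pos hxJ, if_neg hyJ]
      norm_num
  · by_cases hy : Int.fract y ∈ ⋃ J ∈ s, J
    · obtain ⟨J, hJ, hyJ⟩ := (hmem _).1 hy
      have hxJ : Int.fract x ∉ J := fun h => hx ((hmem _).2 ⟨J, hJ, h⟩)
      apply hkey J hJ
      rw [if_neg hxJ, if_pos hyJ]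
      norm_num
    · unfold phi
      rw [if_neg hx, if_neg hy, sub_self, abs_zero]
      have := Finset.sum_nonneg hnn
      positivity

/-- module CmpK: one prime -/
theorem cmp_one {k : ℕ} {A : Set ℝ} (hA : KInt k A) {a : ℝ} (ha : 0 ≤ a) (u : ℝ) {L : ℕ} (hL : 0 < L) :
    ∑ i ∈ Finset.range L, ∫ α in (cut u L i)..(cut u L (i + 1)),
      |phi A (α * a) - phi A (α * (⌊a⌋₊ : ℝ) + cut u L i * Int.fract a)| ≤ (16 * k + 16) / L := by
  classical
  have hL0 : (0:ℝ) < L := by exact_mod_cast hL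
  obtain ⟨s, hsk, hs, rfl⟩ := hA
  have hf0 := Int.fract_nonneg a
  have hfl : a = (⌊a⌋₊ : ℝ) + Int.fract a := by
    rw [natCast_floor_eq_intCast_floor ha]
    exact (Int.floor_add_fract a).symm
  have hex : ∀ J : Set ℝ, ∃ D : ℕ → ℝ → ℝ, J ∈ s →
      (∀ i, IntervalIntegrable (D i) volume (cut u L i) (cut u L (i + 1))) ∧
      (∀ i, ∀ α, cut u L i ≤ α → α ≤ cut u L (i + 1) →
        |(if Int.fract (α * a) ∈ J then (1:ℝ) else 0) -
          (if Int.fract (α * (⌊a⌋₊ : ℝ) + cut u L i * Int.fract a) ∈ J then (1:ℝ) else 0)| ≤ D i α) ∧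
      ∑ i ∈ Finset.range L, ∫ α in (cut u L i)..(cut u L (i + 1)), D i α ≤ 8 / L := by
    intro J
    by_cases hJ : J ∈ s
    · obtain ⟨D, hD1, hD2, hD3⟩ := cmp_mono (upC_upper J) ha u hL
      obtain ⟨E, hE1, hE2, hE3⟩ := cmp_mono (upC_diff_upper (hs J hJ)) ha u hL
      refine ⟨fun i α => D i α + E i α, fun _ => ⟨fun i => (hD1 i).add (hE1 i), ?_, ?_⟩⟩
      · intro i α h1 h2
        have hle : α * (⌊a⌋₊ : ℝ) + cut u L i * Int.fract a ≤ α * a := by
          have e2 : α * a = α * (⌊a⌋₊ : ℝ) + α * Int.fract a := by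
            conv_lhs => rw [hfl]
            ring
          rw [e2]
          nlinarith
        rw [ind_eq, ind_eq]
        have f1 := hD2 i α h1 h2
        have f2 := hE2 i α h1 h2
        have f3 := FW_mono (upC_upper J) hle
        have f4 := FW_mono (upC_diff_upper (hs J hJ)) hle
        rw [abs_le]
        constructor <;> linarith
      · have e1 : ∀ i ∈ Finset.range L, ∫ α in (cut u L i)..(cut u L (i + 1)), (D i α + E i α) =
            (∫ α in (cut u L i)..(cut u L (i + 1)), D i α) +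
              ∫ α in (cut u L i)..(cut u L (i + 1)), E i α := fun i _ =>
          intervalIntegral.integral_add (hD1 i) (hE1 i)
        rw [Finset.sum_congr rfl e1, Finset.sum_add_distrib]
        have e2 : (8:ℝ) / L = 4 / L + 4 / L := by ring
        linarith
    · exact ⟨fun _ _ => 0, fun h => absurd h hJ⟩
  choose D hD using hex
  have hi : ∀ i, ∫ α in (cut u L i)..(cut u L (i + 1)),
      |phi (⋃ J ∈ s, J) (α * a) -
        phi (⋃ J ∈ s, J) (α * (⌊a⌋₊ : ℝ) + cut u L i * Int.fract a)| ≤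
      2 * ∑ J ∈ s, ∫ α in (cut u L i)..(cut u L (i + 1)), D J i α := by
    intro i
    have hint : IntervalIntegrable (fun α => 2 * ∑ J ∈ s, D J i α) volume
        (cut u L i) (cut u L (i + 1)) := by
      refine IntervalIntegrable.const_mul ?_ 2
      have := IntervalIntegrable.sum s (f := fun J α => D J i α) (μ := volume)
        (a := cut u L i) (b := cut u L (i + 1)) (fun J hJ => (hD J hJ).1 i)
      have e : (∑ J ∈ s, fun α => D J i α) = fun α => ∑ J ∈ s, D J i α := by
        funext α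
        rw [Finset.sum_apply]
      rwa [e] at this
    have h2 : ∫ α in (cut u L i)..(cut u L (i + 1)), 2 * ∑ J ∈ s, D J i α =
        2 * ∑ J ∈ s, ∫ α in (cut u L i)..(cut u L (i + 1)), D J i α := by
      rw [intervalIntegral.integral_const_mul, intervalIntegral.integral_finset_sum]
      intro J hJ
      exact (hD J hJ).1 i
    rw [← h2, intervalIntegral.integral_of_le (cut_le u hL i),
      intervalIntegral.integral_of_le (cut_le u hL i)]
    refine integral_mono_of_nonneg (Eventually.of_forall fun α => abs_nonneg _)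
      ((intervalIntegrable_iff_integrableOn_Ioc_of_le (cut_le u hL i)).1 hint) ?_
    refine (ae_restrict_iff' measurableSet_Ioc).2 (Eventually.of_forall fun α hα => ?_)
    refine (phi_sub_le s _ _).trans ?_
    refine mul_le_mul_of_nonneg_left ?_ (by norm_num)
    refine Finset.sum_le_sum fun J hJ => ?_
    exact (hD J hJ).2.1 i α hα.1.le hα.2
  calc ∑ i ∈ Finset.range L, ∫ α in (cut u L i)..(cut u L (i + 1)),
      |phi (⋃ J ∈ s, J) (α * a) -
        phi (⋃ J ∈ s, J) (α * (⌊a⌋₊ : ℝ) + cut u L i * Int.fract a)|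
      ≤ ∑ i ∈ Finset.range L, 2 * ∑ J ∈ s, ∫ α in (cut u L i)..(cut u L (i + 1)), D J i α :=
        Finset.sum_le_sum fun i _ => hi i
    _ = 2 * ∑ J ∈ s, ∑ i ∈ Finset.range L, ∫ α in (cut u L i)..(cut u L (i + 1)), D J i α := by
        rw [← Finset.mul_sum, Finset.sum_comm]
    _ ≤ 2 * ∑ J ∈ s, (8:ℝ) / L := by
        refine mul_le_mul_of_nonneg_left ?_ (by norm_num)
        exact Finset.sum_le_sum fun J hJ => (hD J hJ).2.2
    _ = 16 * s.card / L := by
        rw [Finset.sum_const, nsmul_eq_mul]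
        ring
    _ ≤ (16 * k + 16) / L := by
        refine div_le_div_of_nonneg_right ?_ hL0.le
        have : (s.card : ℝ) ≤ k := by exact_mod_cast hsk
        linarith

/-- the number of prime factors in logarithmic mean -/
lemma omega_mean (H : Finset ℕ) : ∃ C : ℝ, 0 < C ∧ ∀ᶠ N : ℕ in atTop,
    ∑ n ∈ Finset.Icc 1 N, (1:ℝ) / n * ((oddT (MM H n)).card : ℝ) ≤ C * lam N * Real.log N := by
  classical
  set m := H.sup id with hm
  have hHm : ∀ h ∈ H, h ≤ m := fun h hh => Finset.le_sup (f := id) hh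
  refine ⟨9 * (∑ h ∈ H, (1 + (h:ℝ))) + 1, by positivity, ?_⟩
  have hlogN : Tendsto (fun N : ℕ => Real.log N) atTop atTop :=
    Real.tendsto_log_atTop.comp tendsto_natCast_atTop_atTop
  filter_upwards [hlogN.eventually_ge_atTop 1, tendsto_lam.eventually_ge_atTop 7,
    eventually_add_le_sq m, eventually_ge_atTop 3] with N h1 h2 h3 h4
  have hlog0 : 0 < Real.log N := by linarith
  have hlam0 : 0 < lam N := by linarith
  set S := Nat.primesLE (N + m) with hS
  -- the mass of the primes up to `N + m`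
  have hmass : ∑ p ∈ S, (1:ℝ) / p ≤ 3 * lam N := by
    refine (sum_inv_primes_le (N + m) (by omega)).trans ?_
    have e1 : 0 < Real.log ((N + m : ℕ) : ℝ) := Real.log_pos (by exact_mod_cast (by omega : 1 < N + m))
    have e2 : Real.log (Real.log ((N + m : ℕ) : ℝ)) ≤ Real.log (2 * Real.log N) :=
      Real.log_le_log e1 h3
    rw [Real.log_mul (by norm_num) hlog0.ne'] at e2
    have e3 : Real.log (Real.log N) = lam N := rfl
    rw [e3] at e2
    have e4 := Real.log_two_lt_d9
    linarith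
  have hcard : ∀ n ∈ Finset.Icc 1 N, ((oddT (MM H n)).card : ℝ) ≤
      ∑ h ∈ H, ((S.filter (fun p => p ∣ n + h)).card : ℝ) := by
    intro n hn
    have hn1 := Finset.mem_Icc.1 hn
    have hsub : oddT (MM H n) ⊆ H.biUnion (fun h => S.filter (fun p => p ∣ n + h)) := by
      intro p hp
      obtain ⟨h, hh, hd⟩ := exists_dvd_of_mem_oddT hp
      rw [Finset.mem_biUnion]
      refine ⟨h, hh, ?_⟩
      rw [Finset.mem_filter]
      refine ⟨?_, hd⟩
      rw [hS, Nat.mem_primesLE]
      have hm1 := hHm h hh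
      have := Nat.le_of_dvd (by omega) hd
      exact ⟨by omega, prime_of_mem_oddT hp⟩
    have h5 := (Finset.card_le_card hsub).trans Finset.card_biUnion_le
    exact_mod_cast h5
  have hone : ∀ h ∈ H, ∑ n ∈ Finset.Icc 1 N, (1:ℝ) / n * ((S.filter (fun p => p ∣ n + h)).card : ℝ) ≤
      (1 + h) * (3 * Real.log N) * (3 * lam N) := by
    intro h hh
    have e1 : ∑ n ∈ Finset.Icc 1 N, (1:ℝ) / n * ((S.filter (fun p => p ∣ n + h)).card : ℝ) =
        ∑ p ∈ S, ∑ n ∈ (Finset.Icc 1 N).filter (fun n => p ∣ n + h), (1:ℝ) / n := by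
      have e2 : ∀ n ∈ Finset.Icc 1 N, (1:ℝ) / n * ((S.filter (fun p => p ∣ n + h)).card : ℝ) =
          ∑ p ∈ S, if p ∣ n + h then (1:ℝ) / n else 0 := by
        intro n _
        rw [← Finset.sum_filter, Finset.sum_const, nsmul_eq_mul, mul_comm]
      rw [Finset.sum_congr rfl e2, Finset.sum_comm]
      refine Finset.sum_congr rfl fun p _ => ?_
      rw [Finset.sum_filter]
    rw [e1]
    calc ∑ p ∈ S, ∑ n ∈ (Finset.Icc 1 N).filter (fun n => p ∣ n + h), (1:ℝ) / n
        ≤ ∑ p ∈ S, (1 + (h:ℝ)) * (3 * Real.log N) * (1 / p) := by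
          refine Finset.sum_le_sum fun p hp => ?_
          rw [hS, Nat.mem_primesLE] at hp
          refine (tail_dvd_sum N h p hp.2.one_lt.le).trans ?_
          refine mul_le_mul_of_nonneg_right ?_ (by positivity)
          refine mul_le_mul_of_nonneg_left ?_ (by positivity)
          have e3 : Real.log ((N + h : ℕ) : ℝ) ≤ 2 * Real.log N := by
            refine le_trans ?_ h3
            apply Real.log_le_log
            · exact_mod_cast (by omega : 0 < N + h)
            · exact_mod_cast (by have := hHm h hh; omega : N + h ≤ N + m)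
          linarith
      _ = (1 + (h:ℝ)) * (3 * Real.log N) * ∑ p ∈ S, (1:ℝ) / p := by rw [Finset.mul_sum]
      _ ≤ _ := mul_le_mul_of_nonneg_left hmass (by positivity)
  calc ∑ n ∈ Finset.Icc 1 N, (1:ℝ) / n * ((oddT (MM H n)).card : ℝ)
      ≤ ∑ n ∈ Finset.Icc 1 N, (1:ℝ) / n * ∑ h ∈ H, ((S.filter (fun p => p ∣ n + h)).card : ℝ) := by
        refine Finset.sum_le_sum fun n hn => ?_
        exact mul_le_mul_of_nonneg_left (hcard n hn) (by positivity)
    _ = ∑ h ∈ H, ∑ n ∈ Finset.Icc 1 N, (1:ℝ) / n * ((S.filter (fun p => p ∣ n + h)).card : ℝ) := by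
        rw [Finset.sum_comm]
        refine Finset.sum_congr rfl fun n _ => ?_
        rw [Finset.mul_sum]
    _ ≤ ∑ h ∈ H, (1 + (h:ℝ)) * (3 * Real.log N) * (3 * lam N) := Finset.sum_le_sum hone
    _ = 9 * (∑ h ∈ H, (1 + (h:ℝ))) * lam N * Real.log N := by
        rw [← Finset.sum_mul, ← Finset.sum_mul]
        ring
    _ ≤ _ := by
        have : 0 ≤ lam N * Real.log N := by positivity
        nlinarith

lemma sg_ite (A : Set ℝ) (t : ℝ) [Decidable (Int.fract t ∈ A)] :
    sg (if Int.fract t ∈ A then -1 else 1) = phi A t := by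
  unfold phi
  by_cases h : Int.fract t ∈ A
  · rw [if_pos h, if_pos h, sg_neg_one]
  · rw [if_neg h, if_neg h, sg_one]

/-- module CmpK, uniformly in the sets -/
theorem cmp_u (k : ℕ) (H : Finset ℕ) :
    ∃ C : ℝ, 0 < C ∧ ∀ᶠ N : ℕ in atTop, ∀ A : ℕ → Set ℝ, (∀ p, KInt k (A p)) →
      ∀ a : ℕ → ℝ, (∀ p, 0 ≤ a p) → ∀ w : ℕ → ℝ,
      (∀ n, |w n| ≤ 1) → ∀ (u : ℝ) (L : ℕ), 0 < L →
        ∑ i ∈ Finset.range L, ∫ α in (cut u L i)..(cut u L (i + 1)),
          |FF w H N (xr A a α) - FF w H N (xi A a (cut u L i) α)| ≤ C * lam N / L := by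
  classical
  obtain ⟨C, hC, hev⟩ := omega_mean H
  refine ⟨(16 * k + 16) * C, by positivity, ?_⟩
  filter_upwards [hev, eventually_ge_atTop 3] with N h1 hN A hA a ha w hw u L hL
  have hL0 : (0:ℝ) < L := by exact_mod_cast hL
  have hlog0 : 0 < Real.log N := Real.log_pos (by exact_mod_cast (by omega : 1 < N))
  have hAm : ∀ p, MeasurableSet (A p) := by
    intro p
    obtain ⟨s, _, hs, he⟩ := hA p
    rw [he]
    exact Finset.measurableSet_biUnion s fun J hJ => (hs J hJ).measurableSet
  set E : ℕ → ℕ → ℝ → ℝ := fun p i α =>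
    |phi (A p) (α * a p) - phi (A p) (α * (⌊a p⌋₊ : ℝ) + cut u L i * Int.fract (a p))| with hE
  have hEm : ∀ p i, Measurable (E p i) := by
    intro p i
    have m1 : Measurable (fun α : ℝ => phi (A p) (α * a p)) := measurable_phi (hAm p) _
    have m2 : Measurable (fun α : ℝ =>
        phi (A p) (α * (⌊a p⌋₊ : ℝ) + cut u L i * Int.fract (a p))) :=
      (measurable_phi_one (hAm p)).comp ((measurable_id.mul_const _).add_const _)
    exact (m1.sub m2).abs
  have hEb : ∀ p i α, E p i α ≤ 2 := by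
    intro p i α
    calc _ ≤ |phi (A p) (α * a p)| +
          |phi (A p) (α * (⌊a p⌋₊ : ℝ) + cut u L i * Int.fract (a p))| := abs_sub _ _
      _ = 2 := by rw [abs_phi, abs_phi]; norm_num
  have hE0 : ∀ p i α, 0 ≤ E p i α := fun p i α => abs_nonneg _
  have hEi : ∀ p i x y, IntervalIntegrable (E p i) volume x y := by
    intro p i x y
    rw [intervalIntegrable_iff, Set.uIoc]
    refine Integrable.mono' (integrable_const (2:ℝ)) (hEm p i).aestronglyMeasurable ?_
    exact Eventually.of_forall fun α => by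
      rw [Real.norm_eq_abs, abs_of_nonneg (hE0 p i α)]
      exact hEb p i α
  -- pointwise
  have hpt : ∀ i α, |FF w H N (xr A a α) - FF w H N (xi A a (cut u L i) α)| ≤
      ∑ n ∈ Finset.Icc 1 N, 1 / n / Real.log N * ∑ p ∈ oddT (MM H n), E p i α := by
    intro i α
    rw [FF_eq, FF_eq, ← Finset.sum_sub_distrib]
    refine (Finset.abs_sum_le_sum_abs _ _).trans ?_
    refine Finset.sum_le_sum fun n hn => ?_
    rw [← mul_sub, abs_mul]
    have hwn : |w n / n / Real.log N| ≤ 1 / n / Real.log N := by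
      rw [abs_div, abs_div, abs_of_pos hlog0, abs_of_nonneg (Nat.cast_nonneg (α := ℝ) n)]
      exact div_le_div_of_nonneg_right (div_le_div_of_nonneg_right (hw n) (Nat.cast_nonneg n)) hlog0.le
    refine mul_le_mul hwn ?_ (abs_nonneg _) (by positivity)
    unfold chiT
    refine (abs_prod_sub_le _ (fun p _ => (abs_sg _).le) (fun p _ => (abs_sg _).le)).trans ?_
    refine Finset.sum_le_sum fun p _ => le_of_eq ?_
    have e1 : sg (xr A a α p) = phi (A p) (α * a p) := by
      unfold xr
      exact sg_ite (A p) _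
    have e2 : sg (xi A a (cut u L i) α p) =
        phi (A p) (α * (⌊a p⌋₊ : ℝ) + cut u L i * Int.fract (a p)) := by
      unfold xi xc
      exact sg_ite (A p) _
    rw [e1, e2]
  have hint : ∀ i, IntervalIntegrable (fun α => ∑ n ∈ Finset.Icc 1 N, 1 / n / Real.log N *
      ∑ p ∈ oddT (MM H n), E p i α) volume (cut u L i) (cut u L (i + 1)) := by
    intro i
    have e : (fun α => ∑ n ∈ Finset.Icc 1 N, 1 / (n:ℝ) / Real.log N * ∑ p ∈ oddT (MM H n), E p i α) =
        ∑ n ∈ Finset.Icc 1 N, fun α => 1 / (n:ℝ) / Real.log N * ∑ p ∈ oddT (MM H n), E p i α := by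
      funext α
      rw [Finset.sum_apply]
    rw [e]
    refine IntervalIntegrable.sum _ fun n _ => IntervalIntegrable.const_mul ?_ _
    have e' : (fun α => ∑ p ∈ oddT (MM H n), E p i α) = ∑ p ∈ oddT (MM H n), E p i := by
      funext α
      rw [Finset.sum_apply]
    rw [e']
    exact IntervalIntegrable.sum _ fun p _ => hEi p i _ _
  have hi : ∀ i, ∫ α in (cut u L i)..(cut u L (i + 1)),
      |FF w H N (xr A a α) - FF w H N (xi A a (cut u L i) α)| ≤
      ∑ n ∈ Finset.Icc 1 N, 1 / n / Real.log N *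
        ∑ p ∈ oddT (MM H n), ∫ α in (cut u L i)..(cut u L (i + 1)), E p i α := by
    intro i
    have e : ∫ α in (cut u L i)..(cut u L (i + 1)), (∑ n ∈ Finset.Icc 1 N, 1 / n / Real.log N *
        ∑ p ∈ oddT (MM H n), E p i α) = ∑ n ∈ Finset.Icc 1 N, 1 / n / Real.log N *
        ∑ p ∈ oddT (MM H n), ∫ α in (cut u L i)..(cut u L (i + 1)), E p i α := by
      rw [intervalIntegral.integral_finset_sum]
      · refine Finset.sum_congr rfl fun n _ => ?_
        rw [intervalIntegral.integral_const_mul, intervalIntegral.integral_finset_sum]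
        exact fun p _ => hEi p i _ _
      · intro n _
        refine IntervalIntegrable.const_mul ?_ _
        have e' : (fun α => ∑ p ∈ oddT (MM H n), E p i α) = ∑ p ∈ oddT (MM H n), E p i := by
          funext α
          rw [Finset.sum_apply]
        rw [e']
        exact IntervalIntegrable.sum _ fun p _ => hEi p i _ _
    rw [← e, intervalIntegral.integral_of_le (cut_le u hL i),
      intervalIntegral.integral_of_le (cut_le u hL i)]
    refine integral_mono_of_nonneg (Eventually.of_forall fun α => abs_nonneg _)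
      ((intervalIntegrable_iff_integrableOn_Ioc_of_le (cut_le u hL i)).1 (hint i)) ?_
    exact Eventually.of_forall fun α => hpt i α
  calc ∑ i ∈ Finset.range L, ∫ α in (cut u L i)..(cut u L (i + 1)),
        |FF w H N (xr A a α) - FF w H N (xi A a (cut u L i) α)|
      ≤ ∑ i ∈ Finset.range L, ∑ n ∈ Finset.Icc 1 N, 1 / n / Real.log N *
        ∑ p ∈ oddT (MM H n), ∫ α in (cut u L i)..(cut u L (i + 1)), E p i α :=
        Finset.sum_le_sum fun i _ => hi i
    _ = ∑ n ∈ Finset.Icc 1 N, 1 / n / Real.log N * ∑ p ∈ oddT (MM H n),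
        ∑ i ∈ Finset.range L, ∫ α in (cut u L i)..(cut u L (i + 1)), E p i α := by
        rw [Finset.sum_comm]
        refine Finset.sum_congr rfl fun n _ => ?_
        rw [← Finset.mul_sum, Finset.sum_comm]
    _ ≤ ∑ n ∈ Finset.Icc 1 N, 1 / n / Real.log N *
        ∑ _p ∈ oddT (MM H n), ((16 * (k:ℝ) + 16) / L) := by
        refine Finset.sum_le_sum fun n _ => ?_
        refine mul_le_mul_of_nonneg_left ?_ (by positivity)
        refine Finset.sum_le_sum fun p _ => ?_
        exact cmp_one (hA p) (ha p) u hL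
    _ = (16 * (k:ℝ) + 16) / L / Real.log N *
        ∑ n ∈ Finset.Icc 1 N, (1:ℝ) / n * ((oddT (MM H n)).card : ℝ) := by
        rw [Finset.mul_sum]
        refine Finset.sum_congr rfl fun n _ => ?_
        rw [Finset.sum_const, nsmul_eq_mul]
        field_simp
    _ ≤ (16 * k + 16) / L / Real.log N * (C * lam N * Real.log N) :=
        mul_le_mul_of_nonneg_left h1 (by positivity)
    _ = (16 * k + 16) * C * lam N / L := by
        field_simp

/-- module CmpK -/
theorem cmp_k {k : ℕ} {A : ℕ → Set ℝ} (hA : ∀ p, KInt k (A p)) (H : Finset ℕ) :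
    ∃ C : ℝ, 0 < C ∧ ∀ᶠ N : ℕ in atTop, ∀ a : ℕ → ℝ, (∀ p, 0 ≤ a p) → ∀ w : ℕ → ℝ,
      (∀ n, |w n| ≤ 1) → ∀ (u : ℝ) (L : ℕ), 0 < L →
        ∑ i ∈ Finset.range L, ∫ α in (cut u L i)..(cut u L (i + 1)),
          |FF w H N (xr A a α) - FF w H N (xi A a (cut u L i) α)| ≤ C * lam N / L := by
  obtain ⟨C, hC, hev⟩ := cmp_u k H
  exact ⟨C, hC, hev.mono fun N h => h A hA⟩

end Pool.Agent.Lib.P4a7640K
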