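import Mathlib
import Pool.Agent.Lib.P4a7640K.Par
import Pool.Agent.Lib.P4a7640Y.LipK
import Pool.Agent.Lib.P4a7640Y.Pair

/-!
# Rotated sign functions, the frequency zero, counting conditions
-/

open Filter Topology MeasureTheory

namespace Pool.Agent.Lib.P4a7640K

open Pool.Agent.Lib.P4a7640 Pool.Agent.Lib.P4a7640M Pool.Agent.Lib.P4a7640Y Pool.Agent.Lib.P4a7640Z

/-- the function of a rotated set -/
noncomputable def phR (A : Set ℝ) (θ : ℝ) (x : UnitAddCircle) : ℝ := phiC A (x + (θ : UnitAddCircle))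

lemma measurable_phR {A : Set ℝ} (hA : MeasurableSet A) (θ : ℝ) : Measurable (phR A θ) :=
  (measurable_phiC hA).comp (measurable_add_const _)

lemma abs_phR (A : Set ℝ) (θ : ℝ) (x : UnitAddCircle) : |phR A θ x| = 1 := abs_phiC _ _

lemma lip_phR {k : ℕ} {A : Set ℝ} (hA : KInt k A) (θ : ℝ) : LL1 (4 * k + 4) (phR A θ) := by
  intro s hs
  have h1 : (fun x : UnitAddCircle => |phR A θ (x + (s : UnitAddCircle)) - phR A θ x|) =
      fun x => (fun y : UnitAddCircle => |phiC A (y + (s : UnitAddCircle)) - phiC A y|)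
        (x + (θ : UnitAddCircle)) := by
    funext x
    unfold phR
    show _ = |phiC A (x + (θ : UnitAddCircle) + (s : UnitAddCircle)) - phiC A (x + (θ : UnitAddCircle))|
    rw [add_right_comm]
  rw [h1, integral_add_right_eq_self
    (fun y : UnitAddCircle => |phiC A (y + (s : UnitAddCircle)) - phiC A y|) (θ : UnitAddCircle)]
  exact lip_kint hA s hs

lemma AC_phR (A : Set ℝ) (θ : ℝ) (h : UnitAddCircle) : AC (phR A θ) h = AC (phiC A) h := by
  unfold AC
  have h1 : (fun x : UnitAddCircle => phR A θ x * phR A θ (x + h)) =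
      fun x => (fun y : UnitAddCircle => phiC A y * phiC A (y + h)) (x + (θ : UnitAddCircle)) := by
    funext x
    unfold phR
    show _ = phiC A (x + (θ : UnitAddCircle)) * phiC A (x + (θ : UnitAddCircle) + h)
    rw [add_right_comm]
  rw [h1, integral_add_right_eq_self
    (fun y : UnitAddCircle => phiC A y * phiC A (y + h)) (θ : UnitAddCircle)]

lemma kap_phR (A : Set ℝ) (θ : ℝ) : kap (phR A θ) = kap (phiC A) := by
  unfold kap
  simp only [AC_phR]

lemma LL1_const {C : ℝ} (hC : 0 ≤ C) (v : ℝ) : LL1 C (fun _ : UnitAddCircle => v) := by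
  intro s hs
  simp only [sub_self, abs_zero, integral_zero]
  exact mul_nonneg hC hs

lemma chiT_xc (A : ℕ → Set ℝ) (b : ℕ → ℕ) (θ : ℕ → ℝ) (S : Finset ℕ) (α : ℝ) :
    chiT S (xc A b θ α) = GG (fun p => phR (A p) (θ p)) b S (α : UnitAddCircle) := by
  unfold chiT GG
  refine Finset.prod_congr rfl fun p _ => ?_
  have h1 : b p • (α : UnitAddCircle) + (θ p : UnitAddCircle) = ((α * b p + θ p : ℝ) : UnitAddCircle) := by
    rw [AddCircle.coe_add, ← AddCircle.coe_nsmul, nsmul_eq_mul, mul_comm]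
  show sg (xc A b θ α p) = phiC (A p) (b p • (α : UnitAddCircle) + (θ p : UnitAddCircle))
  rw [h1, phiC_coe]
  unfold xc phi
  split_ifs
  · rw [sg_neg_one]
  · rw [sg_one]

/-- replace the frequency `0` by the frequency `1` and a constant function -/
lemma GG_zero (φ : ℕ → UnitAddCircle → ℝ) (b : ℕ → ℕ) (S : Finset ℕ) (x : UnitAddCircle) :
    GG φ b S x = GG (fun p => if b p = 0 then (fun _ => φ p 0) else φ p)
      (fun p => if b p = 0 then 1 else b p) S x := by
  unfold GG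
  refine Finset.prod_congr rfl fun p _ => ?_
  by_cases h : b p = 0
  · simp only [if_pos h]
    rw [h, zero_smul]
  · simp only [if_neg h]

lemma CntN.one {K κ : ℝ} {b : ℕ → ℕ} (h : CntN K κ b) :
    CntN (2 * K) κ (fun p => if b p = 0 then 1 else b p) := by
  classical
  intro n y hy
  have h0 : 0 ≤ K * y ^ (1 - κ) := le_trans (Nat.cast_nonneg _) (h 0 y hy)
  rcases Nat.lt_trichotomy n 1 with hn | hn | hn
  · -- `n = 0`
    have hn0 : n = 0 := by omega
    have h1 : (Finset.Icc 1 ⌊y⌋₊).filter (fun p => p.Prime ∧ (if b p = 0 then 1 else b p) = n) = ∅ := by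
      rw [Finset.filter_eq_empty_iff]
      rintro p _ ⟨_, hp⟩
      rw [hn0] at hp
      split_ifs at hp with h2
      exact h2 hp
    have h2 : (((Finset.Icc 1 ⌊y⌋₊).filter
        (fun p => p.Prime ∧ (if b p = 0 then 1 else b p) = n)).card : ℝ) = 0 := by
      rw [h1, Finset.card_empty, Nat.cast_zero]
    refine le_trans (le_of_eq ?_) (show 0 ≤ 2 * K * y ^ (1 - κ) by linarith)
    convert h2
  · -- `n = 1`
    have h1 : (Finset.Icc 1 ⌊y⌋₊).filter (fun p => p.Prime ∧ (if b p = 0 then 1 else b p) = n) ⊆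
        (Finset.Icc 1 ⌊y⌋₊).filter (fun p => p.Prime ∧ b p = 0) ∪
        (Finset.Icc 1 ⌊y⌋₊).filter (fun p => p.Prime ∧ b p = 1) := by
      intro p hp
      rw [Finset.mem_filter] at hp
      rw [Finset.mem_union, Finset.mem_filter, Finset.mem_filter]
      obtain ⟨hp1, hp2, hp3⟩ := hp
      by_cases h2 : b p = 0
      · exact Or.inl ⟨hp1, hp2, h2⟩
      · rw [if_neg h2] at hp3
        exact Or.inr ⟨hp1, hp2, by omega⟩
    have h2 : (((Finset.Icc 1 ⌊y⌋₊).filter
        (fun p => p.Prime ∧ (if b p = 0 then 1 else b p) = n)).card : ℝ) ≤ 2 * K * y ^ (1 - κ) := by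
      have e1 := (Finset.card_le_card h1).trans (Finset.card_union_le _ _)
      have e2 : (((Finset.Icc 1 ⌊y⌋₊).filter
        (fun p => p.Prime ∧ (if b p = 0 then 1 else b p) = n)).card : ℝ) ≤
          ((Finset.Icc 1 ⌊y⌋₊).filter (fun p => p.Prime ∧ b p = 0)).card +
          ((Finset.Icc 1 ⌊y⌋₊).filter (fun p => p.Prime ∧ b p = 1)).card := by exact_mod_cast e1
      have e3 : (((Finset.Icc 1 ⌊y⌋₊).filter (fun p => p.Prime ∧ b p = 0)).card : ℝ) ≤
          K * y ^ (1 - κ) := by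
        refine le_trans (le_of_eq ?_) (h 0 y hy)
        congr
      have e4 : (((Finset.Icc 1 ⌊y⌋₊).filter (fun p => p.Prime ∧ b p = 1)).card : ℝ) ≤
          K * y ^ (1 - κ) := by
        refine le_trans (le_of_eq ?_) (h 1 y hy)
        congr
      linarith
    refine le_trans (le_of_eq ?_) h2
    congr
  · -- `n ≥ 2`
    have h1 : (Finset.Icc 1 ⌊y⌋₊).filter (fun p => p.Prime ∧ (if b p = 0 then 1 else b p) = n) ⊆
        (Finset.Icc 1 ⌊y⌋₊).filter (fun p => p.Prime ∧ b p = n) := by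
      intro p hp
      rw [Finset.mem_filter] at hp ⊢
      obtain ⟨hp1, hp2, hp3⟩ := hp
      split_ifs at hp3 with h2
      · omega
      · exact ⟨hp1, hp2, hp3⟩
    have e3 : (((Finset.Icc 1 ⌊y⌋₊).filter (fun p => p.Prime ∧ b p = n)).card : ℝ) ≤
        K * y ^ (1 - κ) := by
      refine le_trans (le_of_eq ?_) (h n y hy)
      congr
    have h2 : (((Finset.Icc 1 ⌊y⌋₊).filter
        (fun p => p.Prime ∧ (if b p = 0 then 1 else b p) = n)).card : ℝ) ≤ 2 * K * y ^ (1 - κ) := by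
      have e1 : (((Finset.Icc 1 ⌊y⌋₊).filter
        (fun p => p.Prime ∧ (if b p = 0 then 1 else b p) = n)).card : ℝ) ≤
          ((Finset.Icc 1 ⌊y⌋₊).filter (fun p => p.Prime ∧ b p = n)).card := by
        exact_mod_cast Finset.card_le_card h1
      linarith
    refine le_trans (le_of_eq ?_) h2
    congr

lemma Cnt.floor {K κ : ℝ} {a : ℕ → ℝ} (h : Cnt K κ a) (h0 : ∀ p, 0 ≤ a p) :
    CntN K κ (fun p => ⌊a p⌋₊) := by
  classical
  intro n y hy
  refine le_trans ?_ (h n y (Nat.cast_nonneg n) hy)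
  have h1 : (Finset.Icc 1 ⌊y⌋₊).filter (fun p => p.Prime ∧ ⌊a p⌋₊ = n) ⊆
      (Finset.Icc 1 ⌊y⌋₊).filter (fun p => p.Prime ∧ (n:ℝ) ≤ a p ∧ a p < n + 1) := by
    intro p hp
    rw [Finset.mem_filter] at hp ⊢
    obtain ⟨hp1, hp2, hp3⟩ := hp
    rw [Nat.floor_eq_iff (h0 p)] at hp3
    exact ⟨hp1, hp2, hp3⟩
  have h2 := Finset.card_le_card h1
  have h3 : (((Finset.Icc 1 ⌊y⌋₊).filter (fun p => p.Prime ∧ ⌊a p⌋₊ = n)).card : ℝ) ≤
      ((Finset.Icc 1 ⌊y⌋₊).filter (fun p => p.Prime ∧ (n:ℝ) ≤ a p ∧ a p < n + 1)).card := by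
    exact_mod_cast h2
  refine le_trans (le_of_eq ?_) (h3.trans (le_of_eq ?_))
  · congr
  · congr

end Pool.Agent.Lib.P4a7640K
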