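import Pool.Agent.Lib.P4a7640K.Par
import Pool.Agent.Lib.P4a7640Y.Circ3
import Pool.Agent.Lib.P4a7640Y.PairSum

/-!
# The sum of the inverse reduced sizes under the counting condition
-/

open Filter Topology MeasureTheory

namespace Pool.Agent.Lib.P4a7640K

open Pool.Agent.Lib.P4a7640 Pool.Agent.Lib.P4a7640M Pool.Agent.Lib.P4a7640Y Pool.Agent.Lib.P4a7640Z

/-- dyadic summation of the counting condition -/
theorem sum_cnt {K κ : ℝ} (hK : 0 < K) (hκ : 0 < κ) (hκ1 : κ ≤ 1) : ∃ C : ℝ, 0 < C ∧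
    ∀ b : ℕ → ℕ, CntN K κ b → ∀ (n : ℕ) (y : ℝ), 1 ≤ y → ∀ D : Finset ℕ,
      (∀ p ∈ D, p.Prime ∧ y ≤ p ∧ b p = n) → ∑ p ∈ D, (1:ℝ) / p ≤ C / y ^ κ := by
  classical
  set r : ℝ := (2:ℝ) ^ (-κ) with hr
  have hr0 : 0 < r := Real.rpow_pos_of_pos two_pos _
  have hr1 : r < 1 := Real.rpow_lt_one_of_one_lt_of_neg one_lt_two (neg_lt_zero.2 hκ)
  have h1r : 0 < 1 - r := sub_pos.2 hr1
  refine ⟨2 * K / (1 - r), by positivity, fun b hb n y hy D hD => ?_⟩
  have hy0 : 0 < y := by linarith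
  set J : ℕ → ℕ := fun p => Nat.log 2 ⌊(p:ℝ) / y⌋₊ with hJ
  set M : ℕ := D.sup id + 1 with hM
  have hmaps : ∀ p ∈ D, J p ∈ Finset.range M := by
    intro p hp
    rw [Finset.mem_range, hM]
    have h1 : p ≤ D.sup id := Finset.le_sup (f := id) hp
    have h2 : ⌊(p:ℝ) / y⌋₊ ≤ p := by
      have h3 : (p:ℝ) / y ≤ p := div_le_self (Nat.cast_nonneg p) hy
      have h4 := Nat.floor_le_floor h3
      rwa [Nat.floor_natCast] at h4
    have h5 : J p ≤ ⌊(p:ℝ) / y⌋₊ := Nat.log_le_self 2 _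
    omega
  rw [← Finset.sum_fiberwise_of_maps_to hmaps]
  have hj : ∀ j ∈ Finset.range M, ∑ p ∈ D.filter (fun p => J p = j), (1:ℝ) / p ≤
      2 * K / y ^ κ * r ^ j := by
    intro j _
    set z : ℝ := 2 ^ j * y with hz
    have hz0 : 0 < z := by positivity
    have hy2 : 1 ≤ 2 * z := by
      have : (1:ℝ) ≤ 2 ^ j := one_le_pow₀ one_le_two
      nlinarith
    have hmem : ∀ p ∈ D.filter (fun p => J p = j), z ≤ p ∧ (p:ℝ) < 2 * z := by
      intro p hp
      rw [Finset.mem_filter] at hp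
      have hpy := (hD p hp.1).2.1
      have h1 : 1 ≤ (p:ℝ) / y := by rw [le_div_iff₀ hy0]; linarith
      have h2 : ⌊(p:ℝ) / y⌋₊ ≠ 0 := by
        have := (Nat.one_le_floor_iff _).2 h1
        omega
      have h3 : 2 ^ j ≤ ⌊(p:ℝ) / y⌋₊ := by
        rw [← hp.2]
        exact Nat.pow_log_le_self 2 h2
      have h4 : ⌊(p:ℝ) / y⌋₊ < 2 ^ (j + 1) := by
        rw [← hp.2]
        exact Nat.lt_pow_succ_log_self one_lt_two _
      have h5 : ((2 ^ j : ℕ) : ℝ) ≤ (p:ℝ) / y :=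
        (Nat.cast_le.2 h3).trans (Nat.floor_le (by linarith))
      have h6 : (p:ℝ) / y < ((2 ^ (j + 1) : ℕ) : ℝ) :=
        (Nat.lt_floor_add_one _).trans_le (by exact_mod_cast h4)
      push_cast at h5 h6
      rw [le_div_iff₀ hy0] at h5
      rw [div_lt_iff₀ hy0] at h6
      refine ⟨h5, ?_⟩
      rw [hz, pow_succ] at *
      linarith
    have hterm : ∀ p ∈ D.filter (fun p => J p = j), (1:ℝ) / p ≤ 1 / z := fun p hp =>
      one_div_le_one_div_of_le hz0 (hmem p hp).1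
    refine (Finset.sum_le_card_nsmul _ _ _ hterm).trans ?_
    rw [nsmul_eq_mul]
    have hcard : ((D.filter (fun p => J p = j)).card : ℝ) ≤ K * (2 * z) ^ (1 - κ) := by
      refine le_trans ?_ (hb n (2 * z) hy2)
      rw [Nat.cast_le]
      refine Finset.card_le_card fun p hp => ?_
      have h1 := hmem p hp
      rw [Finset.mem_filter] at hp
      have h2 := hD p hp.1
      rw [Finset.mem_filter, Finset.mem_Icc]
      exact ⟨⟨h2.1.one_lt.le, Nat.le_floor h1.2.le⟩, h2.1, h2.2.2⟩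
    have h2z : 0 < 2 * z := by positivity
    have e1 : (2 * z) ^ (1 - κ) = (2 * z) * (2 * z) ^ (-κ) := by
      rw [sub_eq_add_neg, Real.rpow_add h2z, Real.rpow_one]
    have e2 : (2 * z) ^ (-κ) ≤ r ^ j / y ^ κ := by
      have h1 : z ^ (-κ) = r ^ j / y ^ κ := by
        rw [hz, Real.mul_rpow (by positivity) hy0.le, Real.rpow_neg hy0.le, ← Real.rpow_natCast 2 j,
          ← Real.rpow_mul zero_le_two, mul_comm (j:ℝ) (-κ), Real.rpow_mul zero_le_two,
          Real.rpow_natCast]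
        rfl
      rw [← h1]
      exact Real.rpow_le_rpow_of_nonpos hz0 (by linarith) (neg_nonpos.2 hκ.le)
    calc ((D.filter (fun p => J p = j)).card : ℝ) * (1 / z) ≤ K * (2 * z) ^ (1 - κ) * (1 / z) :=
          mul_le_mul_of_nonneg_right hcard (by positivity)
      _ = 2 * K * (2 * z) ^ (-κ) := by
          rw [e1]
          field_simp
      _ ≤ 2 * K * (r ^ j / y ^ κ) := mul_le_mul_of_nonneg_left e2 (by positivity)
      _ = 2 * K / y ^ κ * r ^ j := by ring
  refine (Finset.sum_le_sum hj).trans ?_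
  rw [← Finset.mul_sum]
  have hgeo : ∑ j ∈ Finset.range M, r ^ j ≤ 1 / (1 - r) := by
    rw [geom_sum_eq hr1.ne, ← neg_div_neg_eq, neg_sub, neg_sub]
    exact div_le_div_of_nonneg_right (by linarith [pow_pos hr0 M]) h1r.le
  calc 2 * K / y ^ κ * ∑ j ∈ Finset.range M, r ^ j ≤ 2 * K / y ^ κ * (1 / (1 - r)) :=
        mul_le_mul_of_nonneg_left hgeo (by positivity)
    _ = 2 * K / (1 - r) / y ^ κ := by ring

theorem pair_sum_k {K κ : ℝ} (hK : 0 < K) (hκ : 0 < κ) (hκ1 : κ ≤ 1) : ∃ C : ℝ, 0 < C ∧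
    ∀ b : ℕ → ℕ, CntN K κ b → ∀ (y : ℝ), 1 ≤ y → ∀ D : Finset ℕ,
      (∀ p ∈ D, p.Prime ∧ y ≤ p ∧ b p ≠ 0) → ∀ R : ℕ, 0 < R → ∀ p ∈ D,
        ∑ q ∈ D, (1:ℝ) / q * (1 / mx (b p) (b q)) ≤ C * (R:ℝ) ^ 2 / y ^ κ + (∑ q ∈ D, (1:ℝ) / q) / R := by
  classical
  obtain ⟨C, hC, hsum⟩ := sum_cnt hK hκ hκ1
  refine ⟨C, hC, fun b hb y hy D hD R hR p hp => ?_⟩
  have hb0 : ∀ q ∈ D, b q ≠ 0 := fun q hq => (hD q hq).2.2
  have hmx : ∀ q ∈ D, 1 ≤ mx (b p) (b q) := fun q hq =>
    (Nat.one_le_iff_ne_zero.2 (red_ne (hb0 q hq))).trans (le_max_left _ _)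
  rw [← Finset.sum_filter_add_sum_filter_not D (fun q => mx (b p) (b q) ≤ R)]
  refine add_le_add ?_ ?_
  · have h1 : ∀ q ∈ D.filter (fun q => mx (b p) (b q) ≤ R),
        (1:ℝ) / q * (1 / mx (b p) (b q)) ≤ 1 / q := by
      intro q hq
      rw [Finset.mem_filter] at hq
      have h2 : (1:ℝ) ≤ mx (b p) (b q) := by exact_mod_cast hmx q hq.1
      have h3 : (1:ℝ) / mx (b p) (b q) ≤ 1 := by
        rw [div_le_one (by linarith)]; exact h2
      exact mul_le_of_le_one_right (by positivity) h3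
    refine (Finset.sum_le_sum h1).trans ?_
    have hmaps : ∀ q ∈ D.filter (fun q => mx (b p) (b q) ≤ R),
        (red (b p) (b q), red (b q) (b p)) ∈ (Finset.Icc 1 R) ×ˢ (Finset.Icc 1 R) := by
      intro q hq
      rw [Finset.mem_filter] at hq
      have h2 : red (b p) (b q) ≤ R := (le_max_left _ _).trans hq.2
      have h3 : red (b q) (b p) ≤ R := (le_max_right _ _).trans hq.2
      rw [Finset.mem_product, Finset.mem_Icc, Finset.mem_Icc]
      exact ⟨⟨Nat.one_le_iff_ne_zero.2 (red_ne (hb0 q hq.1)), h2⟩,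
        ⟨Nat.one_le_iff_ne_zero.2 (red_ne (hb0 p hp)), h3⟩⟩
    rw [← Finset.sum_fiberwise_of_maps_to hmaps]
    have hz : ∀ z ∈ (Finset.Icc 1 R) ×ˢ (Finset.Icc 1 R),
        ∑ q ∈ (D.filter (fun q => mx (b p) (b q) ≤ R)).filter
          (fun q => (red (b p) (b q), red (b q) (b p)) = z), (1:ℝ) / q ≤ C / y ^ κ := by
      intro z _
      rcases Finset.eq_empty_or_nonempty
        ((D.filter (fun q => mx (b p) (b q) ≤ R)).filter
          (fun q => (red (b p) (b q), red (b q) (b p)) = z)) with h0 | ⟨q₀, hq₀⟩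
      · rw [h0, Finset.sum_empty]
        have : 0 < y ^ κ := Real.rpow_pos_of_pos (by linarith) _
        positivity
      · refine hsum b hb (b q₀) y hy _ fun q hq => ?_
        rw [Finset.mem_filter, Finset.mem_filter] at hq hq₀
        refine ⟨(hD q hq.1.1).1, (hD q hq.1.1).2.1, ?_⟩
        have e : (red (b p) (b q), red (b q) (b p)) = (red (b p) (b q₀), red (b q₀) (b p)) :=
          hq.2.trans hq₀.2.symm
        have e1 : red (b p) (b q) = red (b p) (b q₀) := congrArg Prod.fst e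
        have e2 : red (b q) (b p) = red (b q₀) (b p) := congrArg Prod.snd e
        have g1 := red_spec (a := b p) (b := b q) (hb0 p hp) (hb0 q hq.1.1)
        have g2 := red_spec (a := b p) (b := b q₀) (hb0 p hp) (hb0 q₀ hq₀.1.1)
        have hne : red (b q₀) (b p) ≠ 0 := red_ne (hb0 p hp)
        have hgcd : Nat.gcd (b p) (b q) = Nat.gcd (b p) (b q₀) := by
          have h4 : red (b q₀) (b p) * Nat.gcd (b p) (b q) =
              red (b q₀) (b p) * Nat.gcd (b p) (b q₀) := by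
            rw [← g2.2.1]
            conv_rhs => rw [g1.2.1]
            rw [e2]
          exact Nat.eq_of_mul_eq_mul_left (Nat.pos_of_ne_zero hne) h4
        rw [g1.2.2.1, g2.2.2.1, e1, hgcd]
    refine (Finset.sum_le_card_nsmul _ _ _ hz).trans (le_of_eq ?_)
    rw [Finset.card_product, Nat.card_Icc, Nat.add_sub_cancel, nsmul_eq_mul]
    push_cast
    ring
  · rw [Finset.sum_div]
    have h5 : (0:ℝ) < R := by exact_mod_cast hR
    refine (Finset.sum_le_sum fun q hq => ?_).trans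
      (Finset.sum_le_sum_of_subset_of_nonneg (Finset.filter_subset _ _) fun q _ _ => by positivity)
    rw [Finset.mem_filter, not_le] at hq
    have h6 : (R:ℝ) ≤ mx (b p) (b q) := by exact_mod_cast hq.2.le
    rw [div_eq_mul_one_div (1 / (q:ℝ)) (R:ℝ)]
    exact mul_le_mul_of_nonneg_left (one_div_le_one_div_of_le h5 h6) (by positivity)

end Pool.Agent.Lib.P4a7640K
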