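import Mathlib
import Pool.Agent.Lib.P4a7640Y.WAE
import Pool.Agent.Lib.P4a7640Z.AES

/-!
# The squareful part of an integer
-/

open Filter Topology MeasureTheory

namespace Pool.Agent.Lib.P4a7640K

open Pool.Agent.Lib.P4a7640 Pool.Agent.Lib.P4a7640M Pool.Agent.Lib.P4a7640Y Pool.Agent.Lib.P4a7640Z

/-- the product of the prime powers `p ^ k ∥ n` with `k ≥ 2` -/
def sqf (n : ℕ) : ℕ := n.factorization.prod fun p k => if 2 ≤ k then p ^ k else 1

lemma sqf_pos (n : ℕ) : 0 < sqf n := by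
  unfold sqf
  refine Finset.prod_pos fun p hp => ?_
  have hp0 : 0 < p := (Nat.prime_of_mem_primeFactors (Nat.support_factorization n ▸ hp)).pos
  dsimp only
  split_ifs
  · exact pow_pos hp0 _
  · exact one_pos

lemma sqf_dvd {n : ℕ} (hn : 0 < n) : sqf n ∣ n := by
  conv_rhs => rw [← Nat.prod_factorization_pow_eq_self hn.ne']
  unfold sqf
  refine Finset.prod_dvd_prod_of_dvd _ _ fun p _ => ?_
  dsimp only
  split_ifs
  · exact dvd_rfl
  · exact one_dvd _

lemma sqf_mul {a b : ℕ} (hc : a.Coprime b) : sqf (a * b) = sqf a * sqf b := by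
  unfold sqf
  rw [Nat.factorization_mul_of_coprime hc]
  exact Finsupp.prod_add_index_of_disjoint
    (by simpa only [Nat.support_factorization] using hc.disjoint_primeFactors) _

lemma sqf_prime_pow {p : ℕ} (hp : p.Prime) {k : ℕ} (hk : k ≠ 0) :
    sqf (p ^ k) = if 2 ≤ k then p ^ k else 1 := by
  unfold sqf
  rw [hp.factorization_pow]
  rw [Finsupp.prod, Finsupp.support_single_ne_zero _ hk, Finset.prod_singleton,
    Finsupp.single_eq_same]

/-- a multiplicative function that is `1` at the primes depends only on `sqf n` -/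
lemma eq_sqf {v : ℕ → ℤˣ} (hv : MultS v) (h1 : ∀ p : ℕ, p.Prime → v p = 1) {n : ℕ} (hn : 0 < n) :
    v n = v (sqf n) := by
  induction n using Nat.recOnPosPrimePosCoprime with
  | prime_pow p k hp hk =>
    rw [sqf_prime_pow hp hk.ne']
    split_ifs with h2
    · rfl
    · have h3 : k = 1 := by omega
      rw [h3, pow_one, h1 p hp, hv.map_one]
  | zero => exact absurd hn (lt_irrefl 0)
  | one =>
    have : sqf 1 = 1 := by
      unfold sqf
      rw [Nat.factorization_one, Finsupp.prod_zero_index]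
    rw [this]
  | coprime a b ha hb hc iha ihb =>
    have ha0 : 0 < a := by omega
    have hb0 : 0 < b := by omega
    rw [hv a b ha0 hb0 hc, sqf_mul hc, iha ha0, ihb hb0,
      ← hv _ _ (sqf_pos a) (sqf_pos b)
        (Nat.Coprime.coprime_dvd_left (sqf_dvd ha0) (Nat.Coprime.coprime_dvd_right (sqf_dvd hb0) hc))]

/-- if `sqf n` is large then `n` is divisible by a large square -/
lemma exists_sq {n : ℕ} (hn : 0 < n) : ∃ d : ℕ, 0 < d ∧ d ^ 2 ∣ n ∧ sqf n ≤ d ^ 3 := by
  have hpr : ∀ p ∈ n.factorization.support, 0 < p := fun p hp =>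
    (Nat.prime_of_mem_primeFactors (Nat.support_factorization n ▸ hp)).pos
  refine ⟨n.factorization.prod fun p k => p ^ (k / 2), ?_, ?_, ?_⟩
  · exact Finset.prod_pos fun p hp => pow_pos (hpr p hp) _
  · conv_rhs => rw [← Nat.prod_factorization_pow_eq_self hn.ne']
    unfold Finsupp.prod
    rw [← Finset.prod_pow]
    refine Finset.prod_dvd_prod_of_dvd _ _ fun p _ => ?_
    dsimp only
    rw [← pow_mul]
    exact pow_dvd_pow p (by omega)
  · unfold sqf Finsupp.prod
    rw [← Finset.prod_pow]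
    refine Finset.prod_le_prod' fun p hp => ?_
    dsimp only
    rw [← pow_mul]
    split_ifs with h2
    · exact Nat.pow_le_pow_right (hpr p hp) (by omega)
    · exact Nat.one_le_pow _ _ (hpr p hp)

lemma UU_le' {N h d : ℕ} (hN : 1 ≤ N) (hd : 1 ≤ d) :
    UU N h d ≤ (2 * h + 1) / d * (Real.log N + CH h) := by
  have hd0 : (0:ℝ) < d := by exact_mod_cast hd
  have hL : 0 ≤ Real.log N := Real.log_natCast_nonneg N
  have hC := CH_pos h
  have hh0 : (0:ℝ) ≤ h := Nat.cast_nonneg h
  rcases le_or_gt (2 * h) d with hh | hh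
  · refine (UU_le hN hd hh).trans ?_
    apply mul_le_mul_of_nonneg_right _ (by linarith)
    exact div_le_div_of_nonneg_right (by linarith) hd0.le
  · have h1 : UU N h d ≤ 1 + Real.log N := by
      unfold UU
      refine (Finset.sum_le_sum_of_subset_of_nonneg (Finset.filter_subset _ _)
        fun n _ _ => by positivity).trans (sum_inv_le N)
    have h2 : (1:ℝ) ≤ (2 * h + 1) / d := by
      rw [le_div_iff₀ hd0, one_mul]
      have : (d:ℝ) < 2 * h := by exact_mod_cast hh
      linarith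
    have h3 : (1:ℝ) ≤ CH h := by
      unfold CH
      have : 0 ≤ Real.log (1 + h) := Real.log_nonneg (by linarith)
      linarith
    calc UU N h d ≤ 1 + Real.log N := h1
      _ ≤ 1 * (Real.log N + CH h) := by linarith
      _ ≤ (2 * h + 1) / d * (Real.log N + CH h) :=
        mul_le_mul_of_nonneg_right h2 (by linarith)

lemma sum_biUnion_le_real {α : Type} [DecidableEq α] (s : Finset ℕ) (t : ℕ → Finset α) {f : α → ℝ}
    (hf : ∀ x, 0 ≤ f x) : ∑ x ∈ s.biUnion t, f x ≤ ∑ i ∈ s, ∑ x ∈ t i, f x := by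
  classical
  induction s using Finset.induction_on with
  | empty => simp
  | insert i s hi ih =>
    rw [Finset.biUnion_insert, Finset.sum_insert hi]
    have h1 := Finset.sum_union_inter (s₁ := t i) (s₂ := s.biUnion t) (f := f)
    have h2 : 0 ≤ ∑ x ∈ t i ∩ s.biUnion t, f x := Finset.sum_nonneg fun x _ => hf x
    linarith

/-- integers with a large squareful part are rare -/
theorem sqf_tail (H : Finset ℕ) : ∃ C : ℝ, 0 < C ∧ ∀ᶠ N : ℕ in atTop, ∀ D : ℕ, 0 < D →
    (∑ n ∈ (Finset.Icc 1 N).filter (fun n => ∃ h ∈ H, D ^ 3 < sqf (n + h)), (1:ℝ) / n) /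
      Real.log N ≤ C / D := by
  classical
  have hlog : Tendsto (fun N : ℕ => Real.log N) atTop atTop :=
    Real.tendsto_log_atTop.comp tendsto_natCast_atTop_atTop
  have hCnn : ∀ h : ℕ, (0:ℝ) ≤ 2 * ((2 * h + 1) * 2) := fun h => by positivity
  refine ⟨∑ h ∈ H, 2 * ((2 * (h:ℝ) + 1) * 2) + 1,
    add_pos_of_nonneg_of_pos (Finset.sum_nonneg fun h _ => hCnn h) one_pos, ?_⟩
  have hev : ∀ᶠ N : ℕ in atTop, ∀ h ∈ H, CH h ≤ Real.log N :=
    (Finset.eventually_all H).2 fun h _ => hlog.eventually_ge_atTop (CH h)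
  filter_upwards [hev, eventually_ge_atTop 2] with N hN hN2 D hD
  have hN1 : (1:ℝ) < N := by exact_mod_cast (by omega : 1 < N)
  have hL : 0 < Real.log N := Real.log_pos hN1
  have hD0 : (0:ℝ) < D := by exact_mod_cast hD
  rw [div_le_iff₀ hL]
  have hsub : (Finset.Icc 1 N).filter (fun n => ∃ h ∈ H, D ^ 3 < sqf (n + h)) ⊆
      H.biUnion fun h => (Finset.Ioo D (N + h + 1)).biUnion fun d =>
        (Finset.Icc 1 N).filter (fun n => d ^ 2 ∣ n + h) := by
    intro n hn
    rw [Finset.mem_filter] at hn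
    obtain ⟨hn1, h, hh, hs⟩ := hn
    have hn2 := Finset.mem_Icc.1 hn1
    obtain ⟨d, hd0, hd2, hd3⟩ := exists_sq (n := n + h) (by omega)
    rw [Finset.mem_biUnion]
    refine ⟨h, hh, ?_⟩
    rw [Finset.mem_biUnion]
    refine ⟨d, ?_, Finset.mem_filter.2 ⟨hn1, hd2⟩⟩
    rw [Finset.mem_Ioo]
    constructor
    · exact lt_of_pow_lt_pow_left₀ 3 (Nat.zero_le d) (hs.trans_le hd3)
    · have h1 : d ^ 2 ≤ n + h := Nat.le_of_dvd (by omega) hd2
      have h2 : d ≤ d ^ 2 := Nat.le_self_pow (by norm_num) d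
      omega
  calc ∑ n ∈ (Finset.Icc 1 N).filter (fun n => ∃ h ∈ H, D ^ 3 < sqf (n + h)), (1:ℝ) / n
      ≤ ∑ n ∈ H.biUnion (fun h => (Finset.Ioo D (N + h + 1)).biUnion fun d =>
        (Finset.Icc 1 N).filter (fun n => d ^ 2 ∣ n + h)), (1:ℝ) / n :=
        Finset.sum_le_sum_of_subset_of_nonneg hsub fun n _ _ => by positivity
    _ ≤ ∑ h ∈ H, ∑ n ∈ (Finset.Ioo D (N + h + 1)).biUnion (fun d =>
        (Finset.Icc 1 N).filter (fun n => d ^ 2 ∣ n + h)), (1:ℝ) / n :=
        sum_biUnion_le_real _ _ fun n => by positivity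
    _ ≤ ∑ h ∈ H, ∑ d ∈ Finset.Ioo D (N + h + 1), UU N h (d ^ 2) :=
        Finset.sum_le_sum fun h _ => sum_biUnion_le_real _ _ fun n => by positivity
    _ ≤ ∑ h ∈ H, (2 * ((2 * (h:ℝ) + 1) * 2)) / D * Real.log N := by
        refine Finset.sum_le_sum fun h hh => ?_
        have h1 : ∀ d ∈ Finset.Ioo D (N + h + 1), UU N h (d ^ 2) ≤
            ((2 * (h:ℝ) + 1) * 2 * Real.log N) * ((d:ℝ) ^ 2)⁻¹ := by
          intro d hd
          have hd1 : 1 ≤ d := by
            have := (Finset.mem_Ioo.1 hd).1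
            omega
          have h2 := UU_le' (N := N) (h := h) (d := d ^ 2) (by omega) (Nat.one_le_pow _ _ hd1)
          refine h2.trans ?_
          push_cast
          have hd0 : (0:ℝ) < d := by exact_mod_cast hd1
          have hh0 : (0:ℝ) ≤ h := Nat.cast_nonneg h
          have h3 := hN h hh
          calc (2 * (h:ℝ) + 1) / (d:ℝ) ^ 2 * (Real.log N + CH h)
              ≤ (2 * (h:ℝ) + 1) / (d:ℝ) ^ 2 * (2 * Real.log N) :=
                mul_le_mul_of_nonneg_left (by linarith) (by positivity)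
            _ = _ := by rw [div_eq_mul_inv]; ring
        refine (Finset.sum_le_sum h1).trans ?_
        rw [← Finset.mul_sum]
        have h4 := sum_Ioo_inv_sq_le (α := ℝ) D (N + h + 1)
        have hh0 : (0:ℝ) ≤ h := Nat.cast_nonneg h
        calc ((2 * (h:ℝ) + 1) * 2 * Real.log N) * ∑ d ∈ Finset.Ioo D (N + h + 1), ((d:ℝ) ^ 2)⁻¹
            ≤ ((2 * (h:ℝ) + 1) * 2 * Real.log N) * (2 / D) := by
              apply mul_le_mul_of_nonneg_left _ (by positivity)
              refine h4.trans ?_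
              exact div_le_div_of_nonneg_left (by norm_num) hD0 (by linarith)
          _ = _ := by field_simp
    _ = (∑ h ∈ H, 2 * ((2 * (h:ℝ) + 1) * 2)) / D * Real.log N := by
        rw [Finset.sum_div, Finset.sum_mul]
    _ ≤ (∑ h ∈ H, 2 * ((2 * (h:ℝ) + 1) * 2) + 1) / D * Real.log N := by
        apply mul_le_mul_of_nonneg_right _ hL.le
        exact div_le_div_of_nonneg_right (by linarith) hD0.le

end Pool.Agent.Lib.P4a7640K
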