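import Mathlib
import Pool.Agent.Lib.P4a7640K.Rot
import Pool.Agent.Lib.P4a7640K.MomentC
import Pool.Agent.Lib.P4a7640K.CmpK
import Pool.Agent.Lib.P4a7640Z.AES

/-!
# Real frequencies: the moment bound and almost every real number
-/

open Filter Topology MeasureTheory

namespace Pool.Agent.Lib.P4a7640K

open Pool.Agent.Lib.P4a7640 Pool.Agent.Lib.P4a7640M Pool.Agent.Lib.P4a7640Y Pool.Agent.Lib.P4a7640Z

lemma measurable_xr {A : ℕ → Set ℝ} (hA : ∀ p, MeasurableSet (A p)) (a : ℕ → ℝ) :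
    Measurable (xr A a) := by
  refine measurable_pi_iff.mpr fun p => ?_
  unfold xr
  refine Measurable.ite ?_ measurable_const measurable_const
  exact (measurable_fract.comp (measurable_id.mul_const _)) (hA p)

namespace FinKAux

lemma measurable_xc {A : ℕ → Set ℝ} (hA : ∀ p, MeasurableSet (A p)) (b : ℕ → ℕ) (θ : ℕ → ℝ) :
    Measurable (xc A b θ) := by
  refine measurable_pi_iff.mpr fun p => ?_
  unfold xc
  refine Measurable.ite ?_ measurable_const measurable_const
  exact (measurable_fract.comp ((measurable_id.mul_const _).add_const _)) (hA p)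

lemma measurableSet_kint {k : ℕ} {A : Set ℝ} (hA : KInt k A) : MeasurableSet A := by
  obtain ⟨s, -, hs, rfl⟩ := hA
  exact Finset.measurableSet_biUnion _ fun J hJ => (hs J hJ).measurableSet

lemma cut_zero (u : ℝ) (L : ℕ) : cut u L 0 = u := by
  unfold cut
  simp

lemma cut_last (u : ℝ) {L : ℕ} (hL : 0 < L) : cut u L L = u + 1 := by
  unfold cut
  have : (L:ℝ) ≠ 0 := by exact_mod_cast hL.ne'
  rw [div_self this]

lemma cut_le (u : ℝ) (L i : ℕ) : cut u L i ≤ cut u L (i + 1) := by
  unfold cut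
  push_cast
  gcongr
  linarith

lemma le_cut (u : ℝ) (L i : ℕ) : u ≤ cut u L i := by
  unfold cut
  exact le_add_of_nonneg_right (by positivity)

lemma cut_le_last (u : ℝ) {L i : ℕ} (hL : 0 < L) (hi : i ≤ L) : cut u L i ≤ u + 1 := by
  have hL0 : (0:ℝ) < L := by exact_mod_cast hL
  have hi' : (i:ℝ) ≤ L := by exact_mod_cast hi
  unfold cut
  have : (i:ℝ) / L ≤ 1 := by rwa [div_le_one hL0]
  linarith

/-- the comparison with functions that depend on the arc -/
lemma glue {F : ℝ → ℝ} {G : ℕ → ℝ → ℝ} (hF : Measurable F) (hG : ∀ i, Measurable (G i))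
    (hFb : ∀ α, |F α| ≤ 2) (hGb : ∀ i α, |G i α| ≤ 2) {u E D : ℝ} {L : ℕ} (hL : 0 < L)
    (hE : ∀ i, ∫ α in u..(u + 1), G i α ^ 2 ≤ E)
    (hD : ∑ i ∈ Finset.range L, ∫ α in (cut u L i)..(cut u L (i + 1)), |F α - G i α| ≤ D) :
    ∫ α in u..(u + 1), F α ^ 2 ≤ L * E + 4 * D := by
  have hII : ∀ (g : ℝ → ℝ) (M a b : ℝ), Measurable g → (∀ α, |g α| ≤ M) →
      IntervalIntegrable g volume a b := by
    intro g M a b hg hb
    refine (intervalIntegrable_const (c := M)).mono_fun' hg.aestronglyMeasurable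
      (Eventually.of_forall fun α => ?_)
    simp only [Real.norm_eq_abs]
    exact hb α
  have hsq : ∀ (g : ℝ → ℝ), (∀ α, |g α| ≤ 2) → ∀ α, |g α ^ 2| ≤ 4 := by
    intro g hg α
    rw [abs_pow]
    have := hg α
    have h0 := abs_nonneg (g α)
    nlinarith
  have hF2 : ∀ a b, IntervalIntegrable (fun α => F α ^ 2) volume a b := fun a b =>
    hII _ 4 a b (hF.pow_const 2) (hsq F hFb)
  have hG2 : ∀ i a b, IntervalIntegrable (fun α => G i α ^ 2) volume a b := fun i a b =>
    hII _ 4 a b ((hG i).pow_const 2) (hsq (G i) (hGb i))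
  have hFG : ∀ i a b, IntervalIntegrable (fun α => |F α - G i α|) volume a b := by
    intro i a b
    refine hII _ 4 a b (hF.sub (hG i)).norm fun α => ?_
    rw [abs_abs]
    have h1 := abs_sub (F α) (G i α)
    have h2 := hFb α
    have h3 := hGb i α
    linarith
  have h1 : ∫ α in u..(u + 1), F α ^ 2 =
      ∑ i ∈ Finset.range L, ∫ α in (cut u L i)..(cut u L (i + 1)), F α ^ 2 := by
    rw [intervalIntegral.sum_integral_adjacent_intervals (fun i _ => hF2 _ _), cut_zero,
      cut_last u hL]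
  have h2 : ∀ i ∈ Finset.range L, ∫ α in (cut u L i)..(cut u L (i + 1)), F α ^ 2 ≤
      E + 4 * ∫ α in (cut u L i)..(cut u L (i + 1)), |F α - G i α| := by
    intro i hi
    have hi' : i + 1 ≤ L := Finset.mem_range.1 hi
    have h3 : ∫ α in (cut u L i)..(cut u L (i + 1)), F α ^ 2 ≤
        ∫ α in (cut u L i)..(cut u L (i + 1)), (G i α ^ 2 + 4 * |F α - G i α|) := by
      refine intervalIntegral.integral_mono_on (cut_le u L i) (hF2 _ _)
        ((hG2 i _ _).add ((hFG i _ _).const_mul 4)) fun α _ => ?_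
      have h4 : F α ^ 2 - G i α ^ 2 = (F α - G i α) * (F α + G i α) := by ring
      have h5 : (F α - G i α) * (F α + G i α) ≤ |F α - G i α| * 4 := by
        refine (le_abs_self _).trans ?_
        rw [abs_mul]
        refine mul_le_mul_of_nonneg_left ?_ (abs_nonneg _)
        have h6 := abs_add_le (F α) (G i α)
        have h7 := hFb α
        have h8 := hGb i α
        linarith
      linarith
    rw [intervalIntegral.integral_add (hG2 i _ _) ((hFG i _ _).const_mul 4),
      intervalIntegral.integral_const_mul] at h3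
    have h9 : ∫ α in (cut u L i)..(cut u L (i + 1)), G i α ^ 2 ≤ ∫ α in u..(u + 1), G i α ^ 2 :=
      intervalIntegral.integral_mono_interval (le_cut u L i) (cut_le u L i)
        (cut_le_last u hL hi') (Eventually.of_forall fun α => sq_nonneg _) (hG2 i _ _)
    linarith [hE i]
  rw [h1]
  refine (Finset.sum_le_sum h2).trans ?_
  rw [Finset.sum_add_distrib, ← Finset.mul_sum, Finset.sum_const, Finset.card_range, nsmul_eq_mul]
  linarith

end FinKAux

open FinKAux

/-- The moment bound for real frequencies. -/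
theorem moment_r {k : ℕ} {K κ : ℝ} (hK : 0 < K) (hκ : 0 < κ) (hκ1 : κ ≤ 1) {A : ℕ → Set ℝ}
    (hA : ∀ p, KInt k (A p)) {a : ℕ → ℝ} (ha0 : ∀ p, 0 ≤ a p) (ha : Cnt K κ a)
    (hM : Tendsto (fun N : ℕ => mass (fun p => dl (A p)) N / Real.log (lam N) ^ 2) atTop atTop)
    {H : Finset ℕ} (hH : H.Nonempty) :
    ∃ c : ℝ, 0 < c ∧ ∃ B : ℝ, 0 < B ∧ ∀ᶠ N : ℕ in atTop, ∀ w : ℕ → ℝ, (∀ n, |w n| ≤ 1) →
      ∀ u : ℝ, ∫ α in u..(u + 1), FF w H N (xr A a α) ^ 2 ≤
        B * Real.exp (-(4 * c * Real.sqrt (mass (fun p => dl (A p)) N))) := by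
  obtain ⟨c, hc, B, hB, h1⟩ := moment_c hK hκ hκ1 hA (ha.floor ha0) hM hH
  obtain ⟨C, hC, h2⟩ := cmp_k hA H
  have hAm : ∀ p, MeasurableSet (A p) := fun p => measurableSet_kint (hA p)
  have hlogN : Tendsto (fun N : ℕ => Real.log (N:ℝ)) atTop atTop :=
    Real.tendsto_log_atTop.comp tendsto_natCast_atTop_atTop
  have hlam : Tendsto (fun N : ℕ => lam N) atTop atTop := by
    unfold lam
    exact Real.tendsto_log_atTop.comp hlogN
  refine ⟨c / 4, by positivity, 2 * B + 4 * C, by positivity, ?_⟩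
  filter_upwards [h1, h2, hM.eventually_ge_atTop ((1 / c) ^ 2), hlam.eventually_ge_atTop 2,
    hlogN.eventually_ge_atTop 1, eventually_ge_atTop 2] with N g1 g2 g3 g4 g5 g6
  intro w hw u
  set R : ℝ := Real.sqrt (mass (fun p => dl (A p)) N) with hR
  have hR0 : 0 ≤ R := Real.sqrt_nonneg _
  -- `lam N ≤ exp (c R)`
  have hL2 : 0 < Real.log (lam N) := Real.log_pos (by linarith)
  have hlamR : lam N ≤ Real.exp (c * R) := by
    rw [le_div_iff₀ (by positivity), ← mul_pow] at g3
    have e1 : 1 / c * Real.log (lam N) ≤ R := Real.le_sqrt_of_sq_le g3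
    have e2 : Real.log (lam N) ≤ c * R := by
      calc Real.log (lam N) = c * (1 / c * Real.log (lam N)) := by field_simp
        _ ≤ c * R := mul_le_mul_of_nonneg_left e1 hc.le
    rwa [Real.log_le_iff_le_exp (by linarith)] at e2
  -- the number of arcs
  set L : ℕ := ⌈Real.exp (2 * c * R)⌉₊ with hL
  have hL0 : 0 < L := Nat.ceil_pos.2 (Real.exp_pos _)
  have hL0' : (0:ℝ) < L := by exact_mod_cast hL0
  have hLge : Real.exp (2 * c * R) ≤ L := Nat.le_ceil _
  have hLle : (L:ℝ) ≤ 2 * Real.exp (2 * c * R) := by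
    have e1 := (Nat.ceil_lt_add_one (Real.exp_pos (2 * c * R)).le).le
    have e2 : 1 ≤ Real.exp (2 * c * R) := Real.one_le_exp (by positivity)
    rw [← hL] at e1
    linarith
  have hb : ∀ x : SS, |FF w H N x| ≤ 2 := by
    intro x
    have e1 := FF_bound hw H (N := N) g6 x
    have e2 : 1 / Real.log N ≤ 1 := by
      rw [div_le_one (by linarith)]
      exact g5
    linarith
  have hglue := glue (F := fun α => FF w H N (xr A a α))
    (G := fun i α => FF w H N (xi A a (cut u L i) α))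
    ((measurable_FF w H N).comp (measurable_xr hAm a))
    (fun i => (measurable_FF w H N).comp (measurable_xc hAm _ _)) (fun α => hb _) (fun i α => hb _)
    (u := u) (L := L) hL0 (fun i => g1 w hw _ u) (g2 a ha0 w hw u L hL0)
  refine hglue.trans ?_
  have e1 : (L:ℝ) * (B * Real.exp (-(4 * c * R))) ≤ 2 * B * Real.exp (-(c * R)) := by
    calc (L:ℝ) * (B * Real.exp (-(4 * c * R)))
        ≤ 2 * Real.exp (2 * c * R) * (B * Real.exp (-(4 * c * R))) :=
          mul_le_mul_of_nonneg_right hLle (by positivity)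
      _ = 2 * B * Real.exp (-(2 * c * R)) := by
          have : Real.exp (-(2 * c * R)) = Real.exp (2 * c * R) * Real.exp (-(4 * c * R)) := by
            rw [← Real.exp_add]
            congr 1
            ring
          rw [this]
          ring
      _ ≤ 2 * B * Real.exp (-(c * R)) := by
          refine mul_le_mul_of_nonneg_left (Real.exp_le_exp.2 ?_) (by positivity)
          have : 0 ≤ c * R := by positivity
          linarith
  have e2 : 4 * (C * lam N / L) ≤ 4 * C * Real.exp (-(c * R)) := by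
    have e3 : C * lam N / L ≤ C * Real.exp (c * R) / Real.exp (2 * c * R) := by gcongr
    have e4 : C * Real.exp (c * R) / Real.exp (2 * c * R) = C * Real.exp (-(c * R)) := by
      rw [mul_div_assoc, ← Real.exp_sub]
      congr 2
      ring
    rw [e4] at e3
    linarith
  have e5 : Real.exp (-(4 * (c / 4) * R)) = Real.exp (-(c * R)) := by
    congr 1
    ring
  rw [e5]
  calc (L:ℝ) * (B * Real.exp (-(4 * c * R))) + 4 * (C * lam N / L)
      ≤ 2 * B * Real.exp (-(c * R)) + 4 * C * Real.exp (-(c * R)) := add_le_add e1 e2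
    _ = (2 * B + 4 * C) * Real.exp (-(c * R)) := by ring

/-- Almost every `α`: from `moment_r` and `ae_g`. -/
theorem koksma {k : ℕ} {K κ : ℝ} (hK : 0 < K) (hκ : 0 < κ) (hκ1 : κ ≤ 1) {A : ℕ → Set ℝ}
    (hA : ∀ p, KInt k (A p)) {a : ℕ → ℝ} (ha0 : ∀ p, 0 ≤ a p) (ha : Cnt K κ a)
    (hM : Tendsto (fun N : ℕ => mass (fun p => dl (A p)) N / Real.log (lam N) ^ 2) atTop atTop)
    {w : ℕ → ℝ} (hw : ∀ n, |w n| ≤ 1) {H : Finset ℕ} (hH : H.Nonempty) :
    ∃ c : ℝ, 0 < c ∧ ∀ᵐ α : ℝ, ∀ᶠ N : ℕ in atTop, |FF w H N (xr A a α)| ≤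
      Real.exp (-(c * Real.sqrt (mass (fun p => dl (A p)) N))) := by
  have hvol : ∀ p, 0 ≤ dl (A p) ∧ dl (A p) ≤ 1 := by
    intro p
    have h1 : (volume (A p ∩ Set.Ico (0:ℝ) 1)).toReal ≤ 1 := by
      have h2 : volume (A p ∩ Set.Ico (0:ℝ) 1) ≤ 1 := by
        refine (measure_mono Set.inter_subset_right).trans ?_
        rw [Real.volume_Ico]
        norm_num
      have h3 := ENNReal.toReal_mono ENNReal.one_ne_top h2
      rwa [ENNReal.toReal_one] at h3
    have h0 : 0 ≤ (volume (A p ∩ Set.Ico (0:ℝ) 1)).toReal := ENNReal.toReal_nonneg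
    unfold dl
    exact ⟨le_min h0 (by linarith), (min_le_left _ _).trans h1⟩
  exact ae_g (measurable_xr (fun p => measurableSet_kint (hA p)) a) (fun p => (hvol p).1)
    (fun p => (hvol p).2) hM (fun H hH => moment_r hK hκ hκ1 hA ha0 ha hM hH) hw hH

end Pool.Agent.Lib.P4a7640K
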