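import Mathlib
import Pool.Agent.Lib.P4a7640K.Par
import Pool.Agent.Lib.P4a7640Y.Gen

/-!
# Negative frequencies: reflection of the sets
-/

open MeasureTheory Filter Topology

namespace Pool.Agent.Lib.P4a7640K

open Pool.Agent.Lib.P4a7640 Pool.Agent.Lib.P4a7640M Pool.Agent.Lib.P4a7640Y

/-- the reflected set -/
def reflS (A : Set ℝ) : Set ℝ := {t | t ∈ Set.Ico (0:ℝ) 1 ∧ Int.fract (-t) ∈ A}

lemma fract_neg_Ioo {t : ℝ} (h0 : 0 < t) (h1 : t < 1) : Int.fract (-t) = 1 - t := by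
  have h2 : ⌊-t⌋ = -1 := by
    rw [Int.floor_eq_iff]
    push_cast
    constructor <;> linarith
  unfold Int.fract
  rw [h2]
  push_cast
  ring

/-- the phase of a negative frequency -/
lemma mem_reflS (A : Set ℝ) (x : ℝ) : Int.fract (-x) ∈ reflS A ↔ Int.fract x ∈ A := by
  have h1 : Int.fract (-Int.fract (-x)) = Int.fract x := by
    have h2 : -Int.fract (-x) = x + (⌊-x⌋ : ℤ) := by
      unfold Int.fract
      ring
    rw [h2, Int.fract_add_intCast]
  unfold reflS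
  rw [Set.mem_setOf_eq, h1]
  constructor
  · exact fun h => h.2
  · exact fun h => ⟨⟨Int.fract_nonneg _, Int.fract_lt_one _⟩, h⟩

lemma kint_refl {k : ℕ} {A : Set ℝ} (hA : KInt k A) : KInt (k + 1) (reflS A) := by
  classical
  obtain ⟨s, hs1, hs2, hs3⟩ := hA
  refine ⟨insert (if (0:ℝ) ∈ A then {0} else ∅)
    (s.image fun J : Set ℝ => {t : ℝ | (0 < t ∧ t < 1) ∧ 1 - t ∈ J}), ?_, ?_, ?_⟩
  · refine (Finset.card_insert_le _ _).trans ?_
    have := Finset.card_image_le (s := s)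
      (f := fun J : Set ℝ => {t : ℝ | (0 < t ∧ t < 1) ∧ 1 - t ∈ J})
    omega
  · intro J hJ
    rw [Finset.mem_insert] at hJ
    rcases hJ with rfl | hJ
    · split_ifs
      · exact Set.ordConnected_singleton
      · exact Set.ordConnected_empty
    · rw [Finset.mem_image] at hJ
      obtain ⟨I, hI, rfl⟩ := hJ
      refine ⟨fun x hx y hy z hz => ?_⟩
      obtain ⟨⟨hx0, hx1⟩, hxI⟩ := hx
      obtain ⟨⟨hy0, hy1⟩, hyI⟩ := hy
      refine ⟨⟨lt_of_lt_of_le hx0 hz.1, lt_of_le_of_lt hz.2 hy1⟩, ?_⟩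
      exact (hs2 I hI).out hyI hxI ⟨by linarith [hz.2], by linarith [hz.1]⟩
  · ext t
    simp only [Set.mem_iUnion, exists_prop, Finset.mem_insert, Finset.mem_image]
    constructor
    · rintro ⟨⟨h0, h1⟩, h2⟩
      rcases h0.eq_or_lt with h3 | h3
      · refine ⟨_, Or.inl rfl, ?_⟩
        have h4 : (0:ℝ) ∈ A := by
          rw [← h3, neg_zero, Int.fract_zero] at h2
          exact h2
        rw [if_pos h4, ← h3]
        exact Set.mem_singleton 0
      · rw [fract_neg_Ioo h3 h1, hs3] at h2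
        simp only [Set.mem_iUnion, exists_prop] at h2
        obtain ⟨I, hI, h5⟩ := h2
        exact ⟨_, Or.inr ⟨I, hI, rfl⟩, ⟨⟨h3, h1⟩, h5⟩⟩
    · rintro ⟨J, hJ, ht⟩
      rcases hJ with rfl | ⟨I, hI, rfl⟩
      · split_ifs at ht with h4
        · rw [Set.mem_singleton_iff] at ht
          subst ht
          refine ⟨⟨le_rfl, one_pos⟩, ?_⟩
          rw [neg_zero, Int.fract_zero]
          exact h4
        · exact absurd ht (Set.notMem_empty t)
      · obtain ⟨⟨h0, h1⟩, h2⟩ := ht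
        refine ⟨⟨h0.le, h1⟩, ?_⟩
        rw [fract_neg_Ioo h0 h1, hs3]
        simp only [Set.mem_iUnion, exists_prop]
        exact ⟨I, hI, h2⟩

lemma vol_refl {A : Set ℝ} (hA : MeasurableSet A) :
    volume (reflS A ∩ Set.Ico (0:ℝ) 1) = volume (A ∩ Set.Ico (0:ℝ) 1) := by
  have hmp : MeasurePreserving (fun t : ℝ => 1 - t) volume volume :=
    Measure.measurePreserving_sub_left volume 1
  rw [← hmp.measure_preimage (hA.inter measurableSet_Ico).nullMeasurableSet]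
  apply measure_congr
  have h0 : ∀ᵐ t : ℝ, t ≠ 0 := by
    simp [ae_iff, measure_singleton]
  have h1 : ∀ᵐ t : ℝ, t ≠ 1 := by
    simp [ae_iff, measure_singleton]
  filter_upwards [h0, h1] with t ht0 ht1
  apply propext
  show (t ∈ reflS A ∩ Set.Ico (0:ℝ) 1) ↔ (1 - t ∈ A ∩ Set.Ico (0:ℝ) 1)
  constructor
  · rintro ⟨⟨h2, h3⟩, _⟩
    have h4 : 0 < t := lt_of_le_of_ne h2.1 (Ne.symm ht0)
    rw [fract_neg_Ioo h4 h2.2] at h3
    exact ⟨h3, by linarith [h2.2], by linarith⟩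
  · rintro ⟨h2, h3, h4⟩
    have h5 : 0 < t := by linarith
    have h6 : t < 1 := lt_of_le_of_ne (by linarith) ht1
    refine ⟨⟨⟨h5.le, h6⟩, ?_⟩, h5.le, h6⟩
    rw [fract_neg_Ioo h5 h6]
    exact h2

lemma dl_refl {A : Set ℝ} (hA : MeasurableSet A) : dl (reflS A) = dl A := by
  unfold dl
  rw [vol_refl hA]

/-- the counting condition for the absolute values -/
lemma cnt_abs {K κ : ℝ} {a : ℕ → ℝ} (h : ∀ (x : ℝ) (N : ℕ),
    ({p : ℕ | p.Prime ∧ p ≤ N ∧ x ≤ a p ∧ a p < x + 1}.ncard : ℝ) ≤ K * (N : ℝ) ^ (1 - κ)) :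
    0 ≤ K ∧ Cnt (3 * K + 1) (min κ 1) (fun p => |a p|) := by
  classical
  have hK : 0 ≤ K := by
    have h1 := h 0 1
    rw [Nat.cast_one, Real.one_rpow, mul_one] at h1
    exact le_trans (Nat.cast_nonneg _) h1
  refine ⟨hK, ?_⟩
  intro x y hx hy
  set N : ℕ := ⌊y⌋₊ with hN
  have hN1 : 1 ≤ N := Nat.one_le_floor_iff y |>.mpr hy
  have hNy : (N:ℝ) ≤ y := Nat.floor_le (by linarith)
  have hN1' : (1:ℝ) ≤ N := by exact_mod_cast hN1
  set S : ℝ → Set ℕ := fun x => {p : ℕ | p.Prime ∧ p ≤ N ∧ x ≤ a p ∧ a p < x + 1} with hS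
  have hfin : ∀ x, (S x).Finite := fun x => (Set.finite_Iic N).subset fun p hp => hp.2.1
  have hsub : ((((Finset.Icc 1 N).filter
      (fun p => p.Prime ∧ x ≤ |a p| ∧ |a p| < x + 1) : Finset ℕ) : Set ℕ)) ⊆
      S x ∪ (S (-x - 1) ∪ S (-x)) := by
    intro p hp
    rw [Finset.mem_coe, Finset.mem_filter, Finset.mem_Icc] at hp
    obtain ⟨⟨_, hp1⟩, hp2, hp3, hp4⟩ := hp
    rcases le_or_gt 0 (a p) with h0 | h0
    · rw [abs_of_nonneg h0] at hp3 hp4
      exact Or.inl ⟨hp2, hp1, hp3, hp4⟩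
    · rw [abs_of_neg h0] at hp3 hp4
      rcases lt_or_ge (a p) (-x) with h1 | h1
      · exact Or.inr (Or.inl ⟨hp2, hp1, by linarith, by linarith⟩)
      · exact Or.inr (Or.inr ⟨hp2, hp1, h1, by linarith⟩)
  have h1 : (((Finset.Icc 1 N).filter
      (fun p => p.Prime ∧ x ≤ |a p| ∧ |a p| < x + 1)).card : ℝ) ≤
      (S x).ncard + ((S (-x - 1)).ncard + (S (-x)).ncard) := by
    have h2 := Set.ncard_le_ncard hsub ((hfin _).union ((hfin _).union (hfin _)))
    rw [Set.ncard_coe_finset] at h2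
    have h3 := Set.ncard_union_le (S x) (S (-x - 1) ∪ S (-x))
    have h4 := Set.ncard_union_le (S (-x - 1)) (S (-x))
    exact_mod_cast h2.trans (h3.trans (Nat.add_le_add_left h4 _))
  have h2 := h x N
  have h3 := h (-x - 1) N
  have h4 := h (-x) N
  have h5 : (N:ℝ) ^ (1 - κ) ≤ y ^ (1 - min κ 1) := by
    calc (N:ℝ) ^ (1 - κ) ≤ (N:ℝ) ^ (1 - min κ 1) :=
          Real.rpow_le_rpow_of_exponent_le hN1' (by linarith [min_le_left κ 1])
      _ ≤ y ^ (1 - min κ 1) :=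
          Real.rpow_le_rpow (by linarith) hNy (by linarith [min_le_right κ 1])
  have h6 : 0 ≤ y ^ (1 - min κ 1) := Real.rpow_nonneg (by linarith) _
  have h7 : K * (N:ℝ) ^ (1 - κ) ≤ K * y ^ (1 - min κ 1) := mul_le_mul_of_nonneg_left h5 hK
  calc _ ≤ (S x).ncard + ((S (-x - 1)).ncard + (S (-x)).ncard : ℝ) := h1
    _ ≤ K * (N:ℝ) ^ (1 - κ) + (K * (N:ℝ) ^ (1 - κ) + K * (N:ℝ) ^ (1 - κ)) :=
        add_le_add h2 (add_le_add h3 h4)
    _ ≤ (3 * K + 1) * y ^ (1 - min κ 1) := by linarith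

/-- a separated sequence satisfies the counting condition -/
lemma cnt_of_sep {a : ℕ → ℝ} (h : ∀ p q : ℕ, p.Prime → q.Prime → p ≠ q → 1 ≤ |a p - a q|)
    (x : ℝ) (N : ℕ) :
    ({p : ℕ | p.Prime ∧ p ≤ N ∧ x ≤ a p ∧ a p < x + 1}.ncard : ℝ) ≤ 1 * (N : ℝ) ^ (1 - (1:ℝ)) := by
  rw [sub_self, Real.rpow_zero, one_mul]
  have h1 : {p : ℕ | p.Prime ∧ p ≤ N ∧ x ≤ a p ∧ a p < x + 1}.ncard ≤ 1 := by
    rw [Set.ncard_le_one ((Set.finite_Iic N).subset fun p hp => hp.2.1)]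
    intro p hp q hq
    by_contra hne
    have h2 := h p q hp.1 hq.1 hne
    obtain ⟨_, _, hp1, hp2⟩ := hp
    obtain ⟨_, _, hq1, hq2⟩ := hq
    rcases le_abs.mp h2 with h3 | h3 <;> linarith
  exact_mod_cast h1

/-- Almost every real number, after scaling. -/
lemma ae_scale {q : ℝ → Prop} {c : ℝ} (hc : c ≠ 0) (h : ∀ᵐ α : ℝ, q α) : ∀ᵐ α : ℝ, q (c * α) := by
  have h1 : Measure.QuasiMeasurePreserving (fun α : ℝ => c * α) volume volume := by
    refine ⟨measurable_const_mul _, ?_⟩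
    rw [Real.map_volume_mul_left hc]
    exact Measure.smul_absolutelyContinuous
  exact h1.ae h

/-- The signs `(-1)^⌊x⌋` are the signs of the interval `[1/2, 1)` at `x / 2`. -/
lemma neg_one_floor_r (x : ℝ) :
    ((-1 : ℤˣ) ^ ⌊x⌋) = -1 ↔ Int.fract (x / 2) ∈ Set.Ico (1 / 2 : ℝ) 1 := by
  set k := ⌊x⌋ with hk
  have h1 := Int.floor_le x
  have h2 := Int.lt_floor_add_one x
  rw [← hk] at h1 h2
  rcases Int.even_or_odd k with he | ho
  · rw [Even.neg_one_zpow he]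
    obtain ⟨j, hj⟩ := he
    have hj' : (k:ℝ) = j + j := by exact_mod_cast hj
    have hf : ⌊x / 2⌋ = j := by
      rw [Int.floor_eq_iff]
      constructor <;> linarith
    have hfr : Int.fract (x / 2) = x / 2 - j := by
      rw [← hf]
      rfl
    constructor
    · intro h
      exact absurd h (by decide)
    · intro h
      rw [hfr, Set.mem_Ico] at h
      exfalso
      linarith [h.1]
  · rw [Odd.neg_one_zpow ho]
    obtain ⟨j, hj⟩ := ho
    have hj' : (k:ℝ) = 2 * j + 1 := by exact_mod_cast hj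
    have hf : ⌊x / 2⌋ = j := by
      rw [Int.floor_eq_iff]
      constructor <;> linarith
    have hfr : Int.fract (x / 2) = x / 2 - j := by
      rw [← hf]
      rfl
    constructor
    · intro _
      rw [hfr, Set.mem_Ico]
      constructor <;> linarith
    · intro _
      rfl

end Pool.Agent.Lib.P4a7640K
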