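import Mathlib
import Pool.Agent.Lib.P4a7640Z.AES
import Pool.Agent.Lib.P4a7640Y.WFair

/-!
# From the second moment bound with a rate to the conclusion, for any measurable family of signs
-/

open MeasureTheory Filter Topology

namespace Pool.Agent.Lib.P4a7640K

open Pool.Agent.Lib.P4a7640 Pool.Agent.Lib.P4a7640M Pool.Agent.Lib.P4a7640Y Pool.Agent.Lib.P4a7640Z

lemma tendsto_mass {δ : ℕ → ℝ}
    (hP : Tendsto (fun N : ℕ => mass δ N / Real.log (lam N) ^ 2) atTop atTop) :
    Tendsto (fun N : ℕ => mass δ N) atTop atTop := by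
  have hlam : Tendsto lam atTop atTop := Real.tendsto_log_atTop.comp
    (Real.tendsto_log_atTop.comp tendsto_natCast_atTop_atTop)
  refine tendsto_atTop.mpr fun b => ?_
  filter_upwards [hP.eventually_ge_atTop (|b| + 1),
    (Real.tendsto_log_atTop.comp hlam).eventually_ge_atTop 1] with N h1 h2
  have h2' : 1 ≤ Real.log (lam N) := h2
  have h3 : 1 ≤ Real.log (lam N) ^ 2 := one_le_pow₀ h2'
  rw [le_div_iff₀ (by linarith)] at h1
  have h4 : |b| + 1 ≤ (|b| + 1) * Real.log (lam N) ^ 2 :=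
    le_mul_of_one_le_right (by positivity) h3
  linarith [le_abs_self b]

lemma tendsto_rate {δ : ℕ → ℝ} {c : ℝ} (hc : 0 < c)
    (hP : Tendsto (fun N : ℕ => mass δ N / Real.log (lam N) ^ 2) atTop atTop) :
    Tendsto (fun N : ℕ => Real.exp (-(c * Real.sqrt (mass δ N)))) atTop (𝓝 0) := by
  apply Real.tendsto_exp_neg_atTop_nhds_zero.comp
  exact (Real.tendsto_sqrt_atTop.comp (tendsto_mass hP)).const_mul_atTop hc

/-- All correlations with a bounded weight. -/
theorem ae_vanishW_x {X : ℝ → SS} (hX : Measurable X) {δ : ℕ → ℝ}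
    (h0 : ∀ p, 0 ≤ δ p) (h1 : ∀ p, δ p ≤ 1)
    (hP : Tendsto (fun N : ℕ => mass δ N / Real.log (lam N) ^ 2) atTop atTop)
    (hm : ∀ H : Finset ℕ, H.Nonempty → ∃ c : ℝ, 0 < c ∧ ∃ B : ℝ, 0 < B ∧ ∀ᶠ N : ℕ in atTop,
      ∀ w : ℕ → ℝ, (∀ n, |w n| ≤ 1) → ∀ u : ℝ,
        ∫ α in u..(u + 1), FF w H N (X α) ^ 2 ≤ B * Real.exp (-(4 * c * Real.sqrt (mass δ N))))
    {w : ℕ → ℝ} (hw : ∀ n, |w n| ≤ 1) (g : ℕ → ℤˣ) :
    ∀ᵐ α : ℝ, VanishW w (fun n => g n * rnd (X α) n) := by
  unfold VanishW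
  rw [ae_all_iff]
  intro H
  by_cases hne : H.Nonempty
  · simp only [hne, true_imp_iff]
    rw [ae_all_iff]
    intro K
    rw [ae_all_iff]
    intro R
    rw [ae_all_iff]
    intro b
    set w' : ℕ → ℝ := fun n => w (n + K) * (if n % R = b then 1 else 0) * prodSeq g H n with hw'
    have hb : ∀ n, |w' n| ≤ 1 := by
      intro n
      rw [hw']
      show |w (n + K) * (if n % R = b then 1 else 0) * prodSeq g H n| ≤ 1
      rw [abs_mul, abs_prodSeq, mul_one, abs_mul]
      split_ifs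
      · rw [abs_one, mul_one]; exact hw _
      · rw [abs_zero, mul_zero]; exact zero_le_one
    obtain ⟨c, hc, hae⟩ := ae_g hX h0 h1 hP hm hb hne
    filter_upwards [hae] with α hα
    have h2 : Tendsto (fun N => FF w' H N (X α)) atTop (𝓝 0) := by
      apply squeeze_zero_norm' _ (tendsto_rate hc hP)
      filter_upwards [hα] with N hN
      rwa [Real.norm_eq_abs]
    refine h2.congr fun N => ?_
    rw [← LA_weight_rnd]
    congr 1
    funext n
    rw [hw']
    show w (n + K) * (if n % R = b then 1 else 0) * prodSeq g H n * prodSeq (rnd (X α)) H n = _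
    rw [mul_assoc, ← prodSeq_mul_fun]
  · exact Eventually.of_forall fun α h => absurd h hne

/-- The conclusion for one sequence of signs, from the vanishing of the correlations. -/
theorem concl_of_vanish {x : SS} {g : ℕ → ℤˣ} (hg : MultS g) {w : ℕ → ℝ} {C : ℝ}
    (hw : ∀ n, |w n| ≤ C) (hv1 : VanishW (fun _ => 1) (fun n => g n * rnd x n))
    (hv2 : VanishW (fun n => w n / (|C| + 1)) (fun n => g n * rnd x n)) {f : ℕ → ℤˣ} (hf : MultS f)
    (hfp : ∃ q : ℕ, 0 < q ∧ ∃ χ : DirichletCharacter ℂ q,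
        ¬ Tendsto (fun N => DD (fun p => f p * (g p * x p)) χ 0 N) atTop atTop) :
    Aperiodic f ∧ FairSystem f ∧
      ∀ F : (ℤ → SignType) → ℝ, Continuous F → Tendsto (fun N => dW w f N F) atTop (𝓝 0) := by
  set C' : ℝ := |C| + 1 with hC'
  have hC'0 : 0 < C' := by positivity
  have hw' : ∀ n, |w n / C'| ≤ 1 := by
    intro n
    rw [abs_div, abs_of_pos hC'0, div_le_one hC'0]
    have := hw n
    linarith [le_abs_self C]
  have hα : ∀ H : Finset ℕ, H.Nonempty →
      Tendsto (LA (prodSeq (fun n => g n * rnd x n) H)) atTop (𝓝 0) := by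
    intro H hH
    refine (hv1 H hH 0 1 0).congr fun N => ?_
    congr 1
    funext n
    rw [Nat.mod_one, if_pos rfl, one_mul, one_mul]
  obtain ⟨q, hq, χ, hnot⟩ := hfp
  have hmu : MultS fun n => g n * rnd x n :=
    hg.mul fun m n hm hn _ => rnd_mul _ hm.ne' hn.ne'
  have hrp : ∀ p : ℕ, p.Prime → rnd x p = x p := by
    intro p hp
    unfold rnd
    rw [hp.factorization, Finsupp.prod_single_index (by simp), pow_one]
  have hDD : (fun N => DD (fun p => f p * (g p * rnd x p)) χ 0 N) =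
      fun N => DD (fun p => f p * (g p * x p)) χ 0 N := by
    funext N
    unfold DD
    refine Finset.sum_congr rfl fun p hp => ?_
    simp only [hrp p (Finset.mem_filter.mp hp).2]
  have hnot' : ¬ Tendsto (fun N => DD (fun p => f p * (g p * rnd x p)) χ 0 N) atTop atTop := by
    rw [hDD]
    exact hnot
  have hvf : Vanish f := (vanish_iff_of_finite hf hmu hq hnot').mpr hα
  refine ⟨hvf.aperiodic hf, fairAlong_of_vanish le_rfl hvf, ?_⟩
  intro F hF
  have hvw : VanishW (fun n => w n / C') f := vanishW_of_finite hw' hf hmu hq hnot' hv2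
  have h2 := (indep_of_vanishW hw' hvw F hF).const_mul C'
  rw [mul_zero] at h2
  refine h2.congr fun N => ?_
  unfold dW
  have h3 : muW (fun n => w n / C') f N F = muW w f N F / C' := by
    rw [muW_eq_LA, muW_eq_LA, div_eq_inv_mul, ← LA_const_mul]
    congr 1
    funext n
    rw [div_eq_inv_mul, mul_assoc]
  have h4 : LA (fun n => w n / C') N = LA w N / C' := by
    rw [div_eq_inv_mul, ← LA_const_mul]
    congr 1
    funext n
    rw [div_eq_inv_mul]
  rw [h3, h4]
  field_simp

/-- **The conclusion for any measurable family of signs.**  For every bounded `w` and almost every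
`α`, every multiplicative `f` at finite distance from `g · X(α) · χ` is aperiodic, its unique
Furstenberg system is the fair coin, and it is independent of `w`. -/
theorem main_of_moment_x {X : ℝ → SS} (hX : Measurable X) {δ : ℕ → ℝ}
    (h0 : ∀ p, 0 ≤ δ p) (h1 : ∀ p, δ p ≤ 1)
    (hP : Tendsto (fun N : ℕ => mass δ N / Real.log (lam N) ^ 2) atTop atTop)
    (hm : ∀ H : Finset ℕ, H.Nonempty → ∃ c : ℝ, 0 < c ∧ ∃ B : ℝ, 0 < B ∧ ∀ᶠ N : ℕ in atTop,
      ∀ w : ℕ → ℝ, (∀ n, |w n| ≤ 1) → ∀ u : ℝ,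
        ∫ α in u..(u + 1), FF w H N (X α) ^ 2 ≤ B * Real.exp (-(4 * c * Real.sqrt (mass δ N))))
    (g : ℕ → ℤˣ) (hg : MultS g) {w : ℕ → ℝ} {C : ℝ} (hw : ∀ n, |w n| ≤ C) :
    ∀ᵐ α : ℝ, ∀ f : ℕ → ℤˣ, MultS f →
      (∃ q : ℕ, 0 < q ∧ ∃ χ : DirichletCharacter ℂ q,
        ¬ Tendsto (fun N => DD (fun p => f p * (g p * X α p)) χ 0 N) atTop atTop) →
      Aperiodic f ∧ FairSystem f ∧
        ∀ F : (ℤ → SignType) → ℝ, Continuous F → Tendsto (fun N => dW w f N F) atTop (𝓝 0) := by
  have hw' : ∀ n, |w n / (|C| + 1)| ≤ 1 := by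
    intro n
    have hC'0 : 0 < |C| + 1 := by positivity
    rw [abs_div, abs_of_pos hC'0, div_le_one hC'0]
    have := hw n
    linarith [le_abs_self C]
  have h1w : ∀ n : ℕ, |(fun _ : ℕ => (1:ℝ)) n| ≤ 1 := fun n => by simp
  filter_upwards [ae_vanishW_x hX h0 h1 hP hm h1w g, ae_vanishW_x hX h0 h1 hP hm hw' g]
    with α hα1 hαw f hf hfp
  exact concl_of_vanish hg hw hα1 hαw hf hfp

/-- a completely multiplicative function is determined by its values at the primes -/
lemma eq_rnd_of_cm {f : ℕ → ℤˣ} (hf : ∀ m n : ℕ, 0 < m → 0 < n → f (m * n) = f m * f n) {x : SS}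
    (hx : ∀ p : ℕ, p.Prime → f p = x p) {n : ℕ} (hn : 0 < n) : f n = rnd x n := by
  induction n using Nat.recOnMul with
  | zero => exact absurd hn (lt_irrefl 0)
  | one =>
    have h1 := hf 1 1 one_pos one_pos
    rw [mul_one] at h1
    have h2 : f 1 = 1 := by
      have h3 := congrArg (fun t => (f 1)⁻¹ * t) h1
      simpa using h3.symm
    rw [h2]
    unfold rnd
    rw [Nat.factorization_one, Finsupp.prod_zero_index]
  | prime p hp =>
    rw [hx p hp]
    unfold rnd
    rw [hp.factorization, Finsupp.prod_single_index (by simp), pow_one]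
  | mul a b iha ihb =>
    have ha : 0 < a := Nat.pos_of_mul_pos_right hn |> fun h => Nat.pos_of_ne_zero (by
      rintro rfl
      simp at hn)
    have hb : 0 < b := Nat.pos_of_ne_zero (by
      rintro rfl
      simp at hn)
    rw [hf a b ha hb, iha ha, ihb hb, rnd_mul _ ha.ne' hb.ne']

end Pool.Agent.Lib.P4a7640K
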