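import Mathlib
import Pool.Agent.Lib.P4a7640Z.AES

/-!
# From a majorant with small second moment to a rate for a family of sequences
-/

open Filter Topology MeasureTheory

namespace Pool.Agent.Lib.P4a7640K

open Pool.Agent.Lib.P4a7640 Pool.Agent.Lib.P4a7640M Pool.Agent.Lib.P4a7640Y Pool.Agent.Lib.P4a7640Z
open Pool.Agent.Lib.P4a7640Z.AESAux

/-- Borel-Cantelli over the scales `exp exp (i + j / J_i)`, `j ≤ J_i ≈ exp (s_i)`, with a majorant `Φ`
of the logarithmic averages of a family of sequences; the interpolation is `LA_step` for the sequence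
itself. -/
theorem ae_u {U : ℝ → Set (ℕ → ℝ)} {Φ : ℕ → ℝ → ℝ} (hΦ : ∀ N, Measurable (Φ N))
    (hΦb : ∀ N, ∃ b : ℝ, ∀ α, |Φ N α| ≤ b) {δ : ℕ → ℝ} (h0 : ∀ p, 0 ≤ δ p) (h1 : ∀ p, δ p ≤ 1)
    (hP : Tendsto (fun N : ℕ => mass δ N / Real.log (lam N) ^ 2) atTop atTop)
    {c B C : ℝ} (hc : 0 < c) (hB : 0 < B) (hC : 0 < C)
    (hm : ∀ᶠ N : ℕ in atTop, ∀ u : ℝ,
      ∫ α in u..(u + 1), Φ N α ^ 2 ≤ B * Real.exp (-(4 * c * Real.sqrt (mass δ N))))
    (hU : ∀ᶠ N : ℕ in atTop, ∀ α, ∀ u ∈ U α,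
      |LA u N| ≤ |Φ N α| + C * Real.exp (-(c * Real.sqrt (mass δ N))))
    (hU1 : ∀ α, ∀ u ∈ U α, ∀ n, |u n| ≤ 1) :
    ∃ c' : ℝ, 0 < c' ∧ ∀ᵐ α : ℝ, ∀ᶠ N : ℕ in atTop, ∀ u ∈ U α,
      |LA u N| ≤ Real.exp (-(c' * Real.sqrt (mass δ N))) := by
  classical
  obtain ⟨C₁, hC₁0, hC₁⟩ := mass_block h0 h1
  choose b hb using hΦb
  -- the rate at the beginning of a block
  set s : ℕ → ℝ := fun i => c * Real.sqrt (mass δ (Ms i)) with hs
  have hs0 : ∀ i, 0 ≤ s i := fun i => mul_nonneg hc.le (Real.sqrt_nonneg _)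
  have hslog : ∀ᶠ i : ℕ in atTop, 2 * Real.log i ≤ s i := by
    have e1 := tendsto_Ms.eventually (hP.eventually_ge_atTop ((2 / c) ^ 2))
    filter_upwards [e1, eventually_ge_atTop 2] with i hi hi2
    have hi2' : (2:ℝ) ≤ i := by exact_mod_cast hi2
    have hlam : (i:ℝ) ≤ lam (Ms i) := lam_Ms_ge i
    have hlog0 : 0 < Real.log i := Real.log_pos (by linarith)
    have hlog : Real.log i ≤ Real.log (lam (Ms i)) := Real.log_le_log (by linarith) hlam
    have hL : 0 < Real.log (lam (Ms i)) := lt_of_lt_of_le hlog0 hlog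
    rw [le_div_iff₀ (by positivity)] at hi
    have e2 : 2 / c * Real.log (lam (Ms i)) ≤ Real.sqrt (mass δ (Ms i)) := by
      apply Real.le_sqrt_of_sq_le
      rw [mul_pow]
      exact hi
    calc 2 * Real.log i ≤ 2 * Real.log (lam (Ms i)) := by linarith
      _ = c * (2 / c * Real.log (lam (Ms i))) := by field_simp
      _ ≤ s i := mul_le_mul_of_nonneg_left e2 hc.le
  -- the number of scales in a block
  set J : ℕ → ℕ := fun i => ⌈Real.exp (s i)⌉₊ with hJ
  have hJ1 : ∀ i, 1 ≤ J i := fun i => Nat.one_le_ceil_iff.2 (Real.exp_pos _)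
  have hJge : ∀ i, Real.exp (s i) ≤ J i := fun i => Nat.le_ceil _
  have hJle : ∀ i, (J i : ℝ) ≤ Real.exp (s i) + 1 := fun i =>
    (Nat.ceil_lt_add_one (Real.exp_pos _).le).le
  -- the square function of a block
  set f : ℕ → ℝ → ℝ := fun i α => Real.sqrt (∑ j ∈ Finset.range (J i + 1),
    (Real.exp (s i) * Φ (Ms (i + j / J i)) α) ^ 2) with hf
  have hfsq : ∀ i α, f i α ^ 2 = ∑ j ∈ Finset.range (J i + 1),
      (Real.exp (s i) * Φ (Ms (i + j / J i)) α) ^ 2 := fun i α =>
    Real.sq_sqrt (Finset.sum_nonneg fun j _ => sq_nonneg _)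
  have hfm : ∀ i, Measurable (f i) := by
    intro i
    refine Measurable.sqrt (Finset.measurable_sum _ fun j _ => ?_)
    exact ((hΦ _).const_mul _).pow_const 2
  have hpos : ∀ (i j : ℕ), (0:ℝ) ≤ (i:ℝ) + j / J i := fun i j => by positivity
  have hfb : ∀ i α, |f i α| ≤ Real.sqrt (∑ j ∈ Finset.range (J i + 1),
      (Real.exp (s i) * b (Ms (i + j / J i))) ^ 2) := by
    intro i α
    rw [abs_of_nonneg (Real.sqrt_nonneg _)]
    refine Real.sqrt_le_sqrt (Finset.sum_le_sum fun j _ => ?_)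
    rw [← sq_abs, abs_mul, abs_of_pos (Real.exp_pos _)]
    have := hb (Ms (i + j / J i)) α
    gcongr
  obtain ⟨N₀, hN₀⟩ := eventually_atTop.1 (hm.and hU)
  obtain ⟨i₀, hi₀⟩ := eventually_atTop.1 ((tendsto_Ms.eventually_ge_atTop N₀).and
    (hslog.and (eventually_ge_atTop 1)))
  have hint : ∀ u : ℝ, ∀ i : ℕ, i₀ ≤ i → ∫ α in u..(u + 1), f i α ^ 2 ≤ 3 * B / (i:ℝ) ^ 2 := by
    intro u i hi
    obtain ⟨hiN, hilog, hi1⟩ := hi₀ i hi
    have hi0 : (0:ℝ) < i := by exact_mod_cast hi1
    have e0 : ∀ j : ℕ, Ms (i:ℝ) ≤ Ms (i + j / J i) := fun j =>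
      Ms_mono (le_add_of_nonneg_right (by positivity))
    have e1 : ∀ j ∈ Finset.range (J i + 1), ∫ α in u..(u + 1),
        (Real.exp (s i) * Φ (Ms (i + j / J i)) α) ^ 2 ≤
          B * Real.exp (-(2 * s i)) := by
      intro j _
      have e2 := (hN₀ (Ms (i + j / J i)) (hiN.trans (e0 j))).1 u
      have e3 : Real.sqrt (mass δ (Ms i)) ≤ Real.sqrt (mass δ (Ms (i + j / J i))) :=
        Real.sqrt_le_sqrt (mass_mono h0 (e0 j))
      have e4 : Real.exp (-(4 * c * Real.sqrt (mass δ (Ms (i + j / J i))))) ≤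
          Real.exp (-(4 * s i)) := by
        refine Real.exp_le_exp.2 ?_
        have : c * Real.sqrt (mass δ (Ms i)) ≤ c * Real.sqrt (mass δ (Ms (i + j / J i))) :=
          mul_le_mul_of_nonneg_left e3 hc.le
        simp only [hs]
        linarith
      have e5 : ∀ α, (Real.exp (s i) * Φ (Ms (i + j / J i)) α) ^ 2 =
          Real.exp (2 * s i) * Φ (Ms (i + j / J i)) α ^ 2 := by
        intro α
        rw [mul_pow, ← Real.exp_nat_mul]
        norm_num
      simp only [e5]
      rw [intervalIntegral.integral_const_mul]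
      calc Real.exp (2 * s i) * ∫ α in u..(u + 1), Φ (Ms (i + j / J i)) α ^ 2
          ≤ Real.exp (2 * s i) * (B * Real.exp (-(4 * s i))) := by
            refine mul_le_mul_of_nonneg_left (e2.trans ?_) (Real.exp_pos _).le
            exact mul_le_mul_of_nonneg_left e4 hB.le
        _ = B * Real.exp (-(2 * s i)) := by
            rw [mul_left_comm, ← Real.exp_add]
            congr 2
            ring
    have e6 : ∀ j ∈ Finset.range (J i + 1), IntervalIntegrable (fun α =>
        (Real.exp (s i) * Φ (Ms (i + j / J i)) α) ^ 2) volume u (u + 1) := by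
      intro j _
      rw [intervalIntegrable_iff_integrableOn_Ioc_of_le (by linarith)]
      refine Integrable.of_bound (((hΦ _).const_mul _).pow_const 2).aestronglyMeasurable
        ((Real.exp (s i) * b (Ms (i + j / J i))) ^ 2) (Eventually.of_forall fun α => ?_)
      rw [Real.norm_eq_abs, abs_pow, abs_mul, abs_of_pos (Real.exp_pos _)]
      have := hb (Ms (i + j / J i)) α
      gcongr
    simp only [hfsq]
    rw [intervalIntegral.integral_finsetSum e6]
    calc ∑ j ∈ Finset.range (J i + 1), ∫ α in u..(u + 1),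
        (Real.exp (s i) * Φ (Ms (i + j / J i)) α) ^ 2
        ≤ ∑ j ∈ Finset.range (J i + 1), B * Real.exp (-(2 * s i)) := Finset.sum_le_sum e1
      _ = (J i + 1) * (B * Real.exp (-(2 * s i))) := by
          rw [Finset.sum_const, Finset.card_range, nsmul_eq_mul]
          push_cast
          ring
      _ ≤ (3 * Real.exp (s i)) * (B * Real.exp (-(2 * s i))) := by
          refine mul_le_mul_of_nonneg_right ?_ (by positivity)
          have e7 := hJle i
          have e8 : 1 ≤ Real.exp (s i) := Real.one_le_exp (hs0 i)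
          linarith
      _ = 3 * B * Real.exp (-s i) := by
          have e9 : Real.exp (s i) * Real.exp (-(2 * s i)) = Real.exp (-s i) := by
            rw [← Real.exp_add]
            congr 1
            ring
          calc _ = 3 * B * (Real.exp (s i) * Real.exp (-(2 * s i))) := by ring
            _ = _ := by rw [e9]
      _ ≤ 3 * B / (i:ℝ) ^ 2 := by
          rw [div_eq_mul_inv]
          refine mul_le_mul_of_nonneg_left ?_ (by positivity)
          calc Real.exp (-s i) ≤ Real.exp (-(2 * Real.log i)) := Real.exp_le_exp.2 (by linarith)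
            _ = ((i:ℝ) ^ 2)⁻¹ := by
                rw [Real.exp_neg, mul_comm, Real.exp_mul, Real.exp_log hi0]
                norm_num
  -- almost everywhere on unit intervals
  have hall : ∀ j : ℤ, ∀ᵐ α ∂((volume : Measure ℝ).restrict (Set.Ioc (j:ℝ) (j + 1))),
      Tendsto (fun k => f k α) atTop (𝓝 0) := fun j =>
    ae_restrict_tendsto hfm hfb (by positivity) fun k hk => hint j k hk
  have hall2 := (ae_restrict_iUnion_iff (μ := (volume : Measure ℝ))
    (fun j : ℤ => Set.Ioc (j:ℝ) (j + 1)) (fun α => Tendsto (fun k => f k α) atTop (𝓝 0))).mpr hall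
  rw [iUnion_Ioc_intCast, Measure.restrict_univ] at hall2
  -- the rate tends to infinity
  have hsinf : Tendsto s atTop atTop := by
    refine tendsto_atTop_mono' atTop hslog ?_
    exact (Real.tendsto_log_atTop.comp tendsto_natCast_atTop_atTop).const_mul_atTop two_pos
  refine ⟨c / 2, by positivity, ?_⟩
  filter_upwards [hall2] with α hα
  have hα1 : ∀ᶠ i : ℕ in atTop, f i α < 1 := (tendsto_order.1 hα).2 1 one_pos
  obtain ⟨i₁, hi₁⟩ := eventually_atTop.1 ((hα1.and
    (hsinf.eventually_ge_atTop (c * Real.sqrt C₁ + 2 * Real.log (3 + C)))).and (eventually_ge_atTop i₀))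
  have hlamt : Tendsto (fun N : ℕ => lam N) atTop atTop := by
    unfold lam
    exact Real.tendsto_log_atTop.comp (Real.tendsto_log_atTop.comp tendsto_natCast_atTop_atTop)
  filter_upwards [hlamt.eventually_ge_atTop ((i₁:ℝ) + 1), eventually_ge_atTop 3] with N hN hN3
  have hN0 : (3:ℝ) ≤ N := by exact_mod_cast hN3
  have hlam0 : 0 ≤ lam N := by
    have : (0:ℝ) ≤ i₁ := Nat.cast_nonneg _
    linarith
  have hNexp : Real.exp (Real.exp (lam N)) = N := by
    have e1 : 0 < Real.log N := Real.log_pos (by linarith)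
    unfold lam
    rw [Real.exp_log e1, Real.exp_log (by linarith)]
  -- the block of `N`
  set i : ℕ := ⌊lam N⌋₊ with hi
  have hile : (i:ℝ) ≤ lam N := Nat.floor_le hlam0
  have hilt : lam N < i + 1 := Nat.lt_floor_add_one _
  have hi1 : i₁ ≤ i := Nat.le_floor (by linarith)
  obtain ⟨⟨hfi, hsi⟩, hi0⟩ := hi₁ i hi1
  have hJ0 : (0:ℝ) < J i := by exact_mod_cast hJ1 i
  set j : ℕ := ⌊(lam N - i) * J i⌋₊ with hj
  have ht0 : 0 ≤ (lam N - i) * J i := mul_nonneg (by linarith) hJ0.le
  have hjle : (j:ℝ) ≤ (lam N - i) * J i := Nat.floor_le ht0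
  have hjlt : (lam N - i) * J i < j + 1 := Nat.lt_floor_add_one _
  have hjJ : j < J i := by
    have : (j:ℝ) < J i := by
      refine lt_of_le_of_lt hjle ?_
      nlinarith
    exact_mod_cast this
  have hx : (i:ℝ) + j / J i ≤ lam N := by
    have : (j:ℝ) / J i ≤ lam N - i := by rwa [div_le_iff₀ hJ0]
    linarith
  have hMN : Ms (i + j / J i) ≤ N := by
    unfold Ms
    rw [Nat.ceil_le]
    calc Real.exp (Real.exp ((i:ℝ) + j / J i)) ≤ Real.exp (Real.exp (lam N)) :=
          Real.exp_le_exp.2 (Real.exp_le_exp.2 hx)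
      _ = N := hNexp
  have hM3 : 3 ≤ Ms ((i:ℝ) + j / J i) := three_le_Ms (hpos i j)
  -- the value at the scale
  have hval : |Φ (Ms (i + j / J i)) α| ≤ Real.exp (-s i) := by
    have e1 : (Real.exp (s i) * Φ (Ms (i + j / J i)) α) ^ 2 ≤ f i α ^ 2 := by
      rw [hfsq]
      exact Finset.single_le_sum (f := fun j : ℕ =>
        (Real.exp (s i) * Φ (Ms (i + j / J i)) α) ^ 2) (fun j _ => sq_nonneg _)
        (Finset.mem_range.2 (by omega))
    have e2 : |Real.exp (s i) * Φ (Ms (i + j / J i)) α| ≤ 1 := by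
      have e3 : 0 ≤ f i α := Real.sqrt_nonneg _
      rw [← abs_of_nonneg e3] at hfi
      exact (sq_le_sq.1 e1).trans hfi.le
    rw [abs_mul, abs_of_pos (Real.exp_pos _)] at e2
    rw [Real.exp_neg, ← one_div, le_div_iff₀ (Real.exp_pos _)]
    linarith
  -- the value of the sequence at the scale
  have hmassM : Ms (i:ℝ) ≤ Ms (i + j / J i) := Ms_mono (le_add_of_nonneg_right (by positivity))
  have hi1' : 1 ≤ i := (hi₀ i hi0).2.2
  have hscale : ∀ u ∈ U α, |LA u (Ms (i + j / J i))| ≤ (1 + C) * Real.exp (-s i) := by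
    intro u hu
    have e1 := (hN₀ (Ms (i + j / J i)) ((hi₀ i hi0).1.trans hmassM)).2 α u hu
    have e3 : Real.sqrt (mass δ (Ms i)) ≤ Real.sqrt (mass δ (Ms (i + j / J i))) :=
      Real.sqrt_le_sqrt (mass_mono h0 hmassM)
    have e4 : Real.exp (-(c * Real.sqrt (mass δ (Ms (i + j / J i))))) ≤ Real.exp (-s i) := by
      refine Real.exp_le_exp.2 ?_
      have : c * Real.sqrt (mass δ (Ms i)) ≤ c * Real.sqrt (mass δ (Ms (i + j / J i))) :=
        mul_le_mul_of_nonneg_left e3 hc.le
      simp only [hs]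
      linarith
    have e5 : C * Real.exp (-(c * Real.sqrt (mass δ (Ms (i + j / J i))))) ≤
        C * Real.exp (-s i) := mul_le_mul_of_nonneg_left e4 hC.le
    linarith
  have hratio : Real.log N / Real.log (Ms (i + j / J i)) - 1 ≤ 2 / J i := by
    have hy : lam N < (i:ℝ) + j / J i + 1 / J i := by
      have : lam N - i < (j + 1) / J i := by rwa [lt_div_iff₀ hJ0]
      rw [add_div] at this
      linarith
    refine ratio_le (y := (i:ℝ) + j / J i + 1 / J i) (hJ1 i) (by omega) ?_ le_rfl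
    rw [← hNexp]
    exact Real.exp_lt_exp.2 (Real.exp_lt_exp.2 hy)
  have hJinv : (2:ℝ) / J i ≤ 2 * Real.exp (-s i) := by
    rw [div_le_iff₀ hJ0]
    have e1 := hJge i
    have e2 : Real.exp (-s i) * Real.exp (s i) = 1 := by
      rw [← Real.exp_add]
      simp
    have e3 : 0 < Real.exp (-s i) := Real.exp_pos _
    nlinarith
  -- the mass
  have hmass : mass δ N ≤ mass δ (Ms i) + C₁ := by
    refine hC₁ (Ms i) N (three_le_Ms (Nat.cast_nonneg i)) (hmassM.trans hMN) ?_
    have := lam_Ms_ge (i:ℝ)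
    linarith
  have hsqrt : Real.sqrt (mass δ N) ≤ Real.sqrt (mass δ (Ms i)) + Real.sqrt C₁ := by
    refine (Real.sqrt_le_sqrt hmass).trans ?_
    rw [Real.sqrt_le_left (by positivity)]
    have e1 := Real.sq_sqrt (mass_nonneg h0 (Ms i))
    have e2 := Real.sq_sqrt hC₁0
    have e3 : 0 ≤ Real.sqrt (mass δ (Ms i)) := Real.sqrt_nonneg _
    have e4 : 0 ≤ Real.sqrt C₁ := Real.sqrt_nonneg _
    nlinarith [mul_nonneg e3 e4]
  have h3 : 3 + C = Real.exp (Real.log (3 + C)) := (Real.exp_log (by positivity)).symm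
  have e5 : s i = c * Real.sqrt (mass δ (Ms i)) := rfl
  have e6 : c / 2 * Real.sqrt (mass δ N) ≤ c / 2 * (Real.sqrt (mass δ (Ms i)) + Real.sqrt C₁) :=
    mul_le_mul_of_nonneg_left hsqrt (by positivity)
  have e7 : c / 2 * (Real.sqrt (mass δ (Ms i)) + Real.sqrt C₁) =
      s i / 2 + c * Real.sqrt C₁ / 2 := by
    rw [e5]
    ring
  intro u hu
  -- the interpolation
  have hstep := LA_step (hU1 α u hu) (A := Ms (i + j / J i)) (N := N) (B := N) (by omega) hMN le_rfl
  have hsc := hscale u hu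
  have htot : |LA u N| ≤ (3 + C) * Real.exp (-s i) := by
    have : (3 + C) * Real.exp (-s i) = (1 + C) * Real.exp (-s i) + 2 * Real.exp (-s i) := by ring
    rw [this]
    linarith
  refine htot.trans ?_
  rw [h3, ← Real.exp_add]
  refine Real.exp_le_exp.2 ?_
  linarith

end Pool.Agent.Lib.P4a7640K
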