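import Mathlib
import Pool.Agent.Lib.P4a7640K.SqfA

/-!
# A correlation as a sum over the tuples of squareful parts

If `f` is multiplicative and `f p = g p * x p` at the primes, then `v = f * g * rnd x` is
multiplicative and `1` at the primes, so `v n` depends only on the squareful part of `n`. Sorted by
the tuples of the squareful parts of `n + h`, `h ∈ H`, the correlation of `f` is a signed sum of
the correlations `FF` of `rnd x` with the weights `wt`.
-/

open Filter Topology MeasureTheory

namespace Pool.Agent.Lib.P4a7640K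

open Pool.Agent.Lib.P4a7640 Pool.Agent.Lib.P4a7640M Pool.Agent.Lib.P4a7640Y Pool.Agent.Lib.P4a7640Z

/-- the weight of a tuple of squareful parts -/
noncomputable def wt (w : ℕ → ℝ) (g : ℕ → ℤˣ) (H : Finset ℕ) (t : H → ℕ) (n : ℕ) : ℝ :=
  w n * (if ∀ h : H, sqf (n + h) = t h then 1 else 0) * prodSeq g H n

lemma abs_wt_le {w : ℕ → ℝ} (hw : ∀ n, |w n| ≤ 1) (g : ℕ → ℤˣ) (H : Finset ℕ) (t : H → ℕ) (n : ℕ) :
    |wt w g H t n| ≤ 1 := by
  unfold wt
  rw [abs_mul, abs_mul, abs_prodSeq, mul_one]
  split_ifs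
  · rw [abs_one, mul_one]
    exact hw n
  · rw [abs_zero, mul_zero]
    exact zero_le_one

/-- the sign of a tuple -/
def ctup (v : ℕ → ℤˣ) (H : Finset ℕ) (t : H → ℕ) : ℝ := ∏ h : H, sg (v (t h))

lemma abs_ctup (v : ℕ → ℤˣ) (H : Finset ℕ) (t : H → ℕ) : |ctup v H t| = 1 := by
  unfold ctup
  rw [Finset.abs_prod]
  exact Finset.prod_eq_one fun h _ => abs_sg _

/-- the factorization at one integer -/
lemma prodSeq_split {f g : ℕ → ℤˣ} (hf : MultS f) (hg : MultS g) {x : SS}
    (hfp : ∀ p : ℕ, p.Prime → f p = g p * x p) (H : Finset ℕ) {n : ℕ} (hn : 0 < n) :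
    prodSeq f H n = ctup (fun m => f m * (g m * rnd x m)) H (fun h : H => sqf (n + h)) *
      (prodSeq g H n * ∏ h ∈ H, sg (rnd x (n + h))) := by
  have hr : MultS (rnd x) := fun a b ha hb _ => rnd_mul x ha.ne' hb.ne'
  have hv : MultS fun m => f m * (g m * rnd x m) := hf.mul (hg.mul hr)
  have hv1 : ∀ p : ℕ, p.Prime → f p * (g p * rnd x p) = 1 := by
    intro p hp
    have e1 : rnd x p = x p := by
      unfold rnd
      rw [hp.factorization]
      exact (Finsupp.prod_single_index (h := fun p k => x p ^ k) (pow_zero _)).trans (pow_one _)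
    rw [e1, ← hfp p hp]
    exact Int.units_mul_self _
  have e2 : ctup (fun m => f m * (g m * rnd x m)) H (fun h : H => sqf (n + h)) =
      ∏ h ∈ H, sg (f (n + h) * (g (n + h) * rnd x (n + h))) := by
    unfold ctup
    rw [Finset.prod_coe_sort H
      (fun h => sg (f (sqf (n + h)) * (g (sqf (n + h)) * rnd x (sqf (n + h)))))]
    refine Finset.prod_congr rfl fun h _ => ?_
    have := eq_sqf hv hv1 (show 0 < n + h by omega)
    exact congrArg sg this.symm
  rw [e2]
  unfold prodSeq
  rw [← Finset.prod_mul_distrib, ← Finset.prod_mul_distrib]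
  refine Finset.prod_congr rfl fun h _ => ?_
  rw [← sg_mul, ← sg_mul, mul_assoc, Int.units_mul_self, mul_one]

lemma FF_eq_LA (w : ℕ → ℝ) (H : Finset ℕ) (N : ℕ) (x : SS) :
    FF w H N x = LA (fun n => w n * ∏ h ∈ H, sg (rnd x (n + h))) N := by
  unfold FF LA
  congr 1
  exact Finset.sum_congr rfl fun n _ => by ring

theorem LA_le_tuples {w : ℕ → ℝ} (hw : ∀ n, |w n| ≤ 1) {f g : ℕ → ℤˣ} (hf : MultS f)
    (hg : MultS g) {x : SS} (hfp : ∀ p : ℕ, p.Prime → f p = g p * x p) (H : Finset ℕ) (D : ℕ)
    {N : ℕ} (hN : 2 ≤ N) :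
    |LA (fun n => w n * prodSeq f H n) N| ≤
      ∑ t ∈ Fintype.piFinset (fun _ : H => Finset.Icc 1 (D ^ 3)), |FF (wt w g H t) H N x| +
        (∑ n ∈ (Finset.Icc 1 N).filter (fun n => ∃ h ∈ H, D ^ 3 < sqf (n + h)), (1:ℝ) / n) /
          Real.log N := by
  have hl : 0 < Real.log N := Real.log_pos (by exact_mod_cast hN)
  set T := Fintype.piFinset (fun _ : H => Finset.Icc 1 (D ^ 3)) with hT
  set v : ℕ → ℤˣ := fun m => f m * (g m * rnd x m) with hv
  set G : ℕ → ℝ := fun n => ∑ t ∈ T, ctup v H t * (wt w g H t n * ∏ h ∈ H, sg (rnd x (n + h)))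
    with hG
  have hkey : ∀ n ∈ Finset.Icc 1 N, |w n * prodSeq f H n - G n| ≤
      if ∃ h ∈ H, D ^ 3 < sqf (n + h) then 1 else 0 := by
    intro n hn
    rw [Finset.mem_Icc] at hn
    have hsp := prodSeq_split hf hg hfp H (show 0 < n by omega)
    by_cases hb : ∃ h ∈ H, D ^ 3 < sqf (n + h)
    · rw [if_pos hb]
      have h0 : G n = 0 := by
        rw [hG]
        refine Finset.sum_eq_zero fun t ht => ?_
        obtain ⟨h, hh, hlt⟩ := hb
        have hne : ¬ ∀ h : H, sqf (n + h) = t h := by
          intro hall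
          have e1 := hall ⟨h, hh⟩
          rw [hT, Fintype.mem_piFinset] at ht
          have e2 := ht ⟨h, hh⟩
          rw [Finset.mem_Icc] at e2
          simp only at e1
          omega
        unfold wt
        rw [if_neg hne]
        ring
      rw [h0, sub_zero, abs_mul, abs_prodSeq, mul_one]
      exact hw n
    · rw [if_neg hb]
      push Not at hb
      have h0 : G n = w n * prodSeq f H n := by
        set t₀ : H → ℕ := fun h => sqf (n + h) with ht₀
        have hmem : t₀ ∈ T := by
          rw [hT, Fintype.mem_piFinset]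
          intro h
          rw [Finset.mem_Icc]
          exact ⟨sqf_pos _, hb h h.2⟩
        rw [hG]
        simp only
        rw [Finset.sum_eq_single t₀]
        · have e1 : wt w g H t₀ n = w n * prodSeq g H n := by
            unfold wt
            rw [if_pos (fun h => rfl), mul_one]
          rw [e1, hsp]
          ring
        · intro t _ hne
          have hne' : ¬ ∀ h : H, sqf (n + h) = t h := by
            intro hall
            exact hne (funext fun h => (hall h).symm)
          unfold wt
          rw [if_neg hne']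
          ring
        · intro h
          exact absurd hmem h
      rw [h0, sub_self, abs_zero]
  have hLG : LA G N = ∑ t ∈ T, ctup v H t * FF (wt w g H t) H N x := by
    rw [hG, LA_sum]
    refine Finset.sum_congr rfl fun t _ => ?_
    rw [LA_const_mul, FF_eq_LA]
  have hdiff : |LA (fun n => w n * prodSeq f H n) N - LA G N| ≤
      (∑ n ∈ (Finset.Icc 1 N).filter (fun n => ∃ h ∈ H, D ^ 3 < sqf (n + h)), (1:ℝ) / n) /
          Real.log N := by
    have e1 : LA (fun n => w n * prodSeq f H n) N - LA G N =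
        (∑ n ∈ Finset.Icc 1 N, (w n * prodSeq f H n - G n) / n) / Real.log N := by
      unfold LA
      rw [← sub_div, ← Finset.sum_sub_distrib]
      congr 1
      exact Finset.sum_congr rfl fun n _ => by rw [sub_div]
    rw [e1, abs_div, abs_of_pos hl, Finset.sum_filter]
    apply div_le_div_of_nonneg_right _ hl.le
    refine (Finset.abs_sum_le_sum_abs _ _).trans (Finset.sum_le_sum fun n hn => ?_)
    rw [abs_div, abs_of_nonneg (Nat.cast_nonneg (α := ℝ) n)]
    refine (div_le_div_of_nonneg_right (hkey n hn) (Nat.cast_nonneg n)).trans (le_of_eq ?_)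
    split_ifs
    · rfl
    · rw [zero_div]
  have hG1 : |LA G N| ≤ ∑ t ∈ T, |FF (wt w g H t) H N x| := by
    rw [hLG]
    refine (Finset.abs_sum_le_sum_abs _ _).trans (Finset.sum_le_sum fun t _ => ?_)
    rw [abs_mul, abs_ctup, one_mul]
  calc |LA (fun n => w n * prodSeq f H n) N|
      = |LA G N + (LA (fun n => w n * prodSeq f H n) N - LA G N)| := by congr 1; ring
    _ ≤ |LA G N| + |LA (fun n => w n * prodSeq f H n) N - LA G N| := abs_add_le _ _
    _ ≤ _ := add_le_add hG1 hdiff

end Pool.Agent.Lib.P4a7640K
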