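import Mathlib
import Pool.Agent.Lib.P4a7640K.SqfB
import Pool.Agent.Lib.P4a7640K.AEU

/-!
# The rate for every multiplicative function with prescribed values at the primes

Sum over the tuples of squareful parts of the shifts: there are `D ^ (3 |H|)` of them, the second
moment of the sum is at most `D ^ (6 |H|)` times that of one correlation, and `D = ⌈exp (η √M)⌉`
with `η = c / (3 |H|)`.
-/

open Filter Topology MeasureTheory

namespace Pool.Agent.Lib.P4a7640K

open Pool.Agent.Lib.P4a7640 Pool.Agent.Lib.P4a7640M Pool.Agent.Lib.P4a7640Y Pool.Agent.Lib.P4a7640Z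

namespace RateUAux

/-- the number of the squareful parts that are taken into account -/
noncomputable def DN (η : ℝ) (δ : ℕ → ℝ) (N : ℕ) : ℕ := ⌈Real.exp (η * Real.sqrt (mass δ N))⌉₊

lemma DN_pos (η : ℝ) (δ : ℕ → ℝ) (N : ℕ) : 0 < DN η δ N := Nat.ceil_pos.2 (Real.exp_pos _)

lemma le_DN (η : ℝ) (δ : ℕ → ℝ) (N : ℕ) : Real.exp (η * Real.sqrt (mass δ N)) ≤ DN η δ N :=
  Nat.le_ceil _

lemma DN_le {η : ℝ} (hη : 0 ≤ η) (δ : ℕ → ℝ) (N : ℕ) :
    (DN η δ N : ℝ) ≤ 2 * Real.exp (η * Real.sqrt (mass δ N)) := by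
  have h1 : (DN η δ N : ℝ) < Real.exp (η * Real.sqrt (mass δ N)) + 1 :=
    Nat.ceil_lt_add_one (Real.exp_pos _).le
  have h2 : 1 ≤ Real.exp (η * Real.sqrt (mass δ N)) :=
    Real.one_le_exp (mul_nonneg hη (Real.sqrt_nonneg _))
  linarith

/-- the tuples -/
def TT (H : Finset ℕ) (D : ℕ) : Finset (H → ℕ) := Fintype.piFinset (fun _ : H => Finset.Icc 1 (D ^ 3))

lemma card_TT (H : Finset ℕ) (D : ℕ) : (TT H D).card = D ^ (3 * H.card) := by
  unfold TT
  rw [Fintype.card_piFinset, Finset.prod_const, Nat.card_Icc, Finset.card_univ, Fintype.card_coe,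
    Nat.add_sub_cancel, ← pow_mul]

/-- the majorant -/
noncomputable def Phi (w : ℕ → ℝ) (g : ℕ → ℤˣ) (H : Finset ℕ) (X : ℝ → SS) (D : ℕ → ℕ) (N : ℕ)
    (α : ℝ) : ℝ := ∑ t ∈ TT H (D N), |FF (wt w g H t) H N (X α)|

lemma measurable_Phi (w : ℕ → ℝ) (g : ℕ → ℤˣ) (H : Finset ℕ) {X : ℝ → SS} (hX : Measurable X)
    (D : ℕ → ℕ) (N : ℕ) : Measurable (Phi w g H X D N) := by
  unfold Phi
  exact Finset.measurable_sum _ fun t _ => ((measurable_FF (wt w g H t) H N).comp hX).abs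

lemma FF_abs_le {w : ℕ → ℝ} (hw : ∀ n, |w n| ≤ 1) (H : Finset ℕ) (N : ℕ) :
    ∃ b : ℝ, ∀ x : SS, |FF w H N x| ≤ b := by
  refine ⟨|∑ n ∈ Finset.Icc 1 N, (1:ℝ) / n| / |Real.log N|, fun x => ?_⟩
  unfold FF
  rw [abs_div]
  refine div_le_div_of_nonneg_right ?_ (abs_nonneg _)
  refine (Finset.abs_sum_le_sum_abs _ _).trans ((Finset.sum_le_sum fun n _ => ?_).trans
    (le_abs_self _))
  rw [abs_mul, abs_div, Nat.abs_cast, Finset.abs_prod, Finset.prod_congr rfl fun h _ => abs_sg _,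
    Finset.prod_const_one, mul_one]
  exact div_le_div_of_nonneg_right (hw n) (Nat.cast_nonneg _)

lemma FF_wt_int {w : ℕ → ℝ} (hw : ∀ n, |w n| ≤ 1) (H : Finset ℕ) (N : ℕ)
    {X : ℝ → SS} (hX : Measurable X) (u : ℝ) :
    IntervalIntegrable (fun α => FF w H N (X α) ^ 2) volume u (u + 1) := by
  obtain ⟨b, hb⟩ := FF_abs_le hw H N
  rw [intervalIntegrable_iff_integrableOn_Ioc_of_le (by linarith)]
  refine Integrable.of_bound (((measurable_FF w H N).comp hX).pow_const 2).aestronglyMeasurable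
    (b ^ 2) (Eventually.of_forall fun α => ?_)
  rw [Real.norm_eq_abs, abs_pow]
  have := hb (X α)
  gcongr

lemma Phi_sq_le {w : ℕ → ℝ} (hw : ∀ n, |w n| ≤ 1) (g : ℕ → ℤˣ) (H : Finset ℕ) {X : ℝ → SS}
    (hX : Measurable X) (D : ℕ → ℕ) {N : ℕ} {u R : ℝ}
    (hR : ∀ w : ℕ → ℝ, (∀ n, |w n| ≤ 1) → ∫ α in u..(u + 1), FF w H N (X α) ^ 2 ≤ R) :
    ∫ α in u..(u + 1), Phi w g H X D N α ^ 2 ≤ ((D N : ℝ) ^ (3 * H.card)) ^ 2 * R := by
  have h1 : ∀ α, Phi w g H X D N α ^ 2 ≤
      ((D N : ℝ) ^ (3 * H.card)) * ∑ t ∈ TT H (D N), FF (wt w g H t) H N (X α) ^ 2 := by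
    intro α
    have h2 := sq_sum_le_card_mul_sum_sq (s := TT H (D N))
      (f := fun t => |FF (wt w g H t) H N (X α)|)
    simp only [sq_abs] at h2
    rw [card_TT] at h2
    push_cast at h2
    exact h2
  have hi : ∀ t : H → ℕ, IntervalIntegrable (fun α => FF (wt w g H t) H N (X α) ^ 2) volume
      u (u + 1) := fun t => FF_wt_int (abs_wt_le hw g H t) H N hX u
  have hs : IntervalIntegrable (fun α => ∑ t ∈ TT H (D N), FF (wt w g H t) H N (X α) ^ 2) volume
      u (u + 1) := by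
    rw [intervalIntegrable_iff_integrableOn_Ioc_of_le (by linarith)]
    exact integrable_finsetSum _ fun t _ =>
      (intervalIntegrable_iff_integrableOn_Ioc_of_le (by linarith)).1 (hi t)
  have hP : IntervalIntegrable (fun α => Phi w g H X D N α ^ 2) volume u (u + 1) := by
    refine (hs.const_mul ((D N : ℝ) ^ (3 * H.card))).mono_fun
      ((measurable_Phi w g H hX D N).pow_const 2).aestronglyMeasurable
      (Eventually.of_forall fun α => ?_)
    show ‖Phi w g H X D N α ^ 2‖ ≤ ‖((D N : ℝ) ^ (3 * H.card)) *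
      ∑ t ∈ TT H (D N), FF (wt w g H t) H N (X α) ^ 2‖
    rw [Real.norm_eq_abs, Real.norm_eq_abs, abs_of_nonneg (sq_nonneg _)]
    exact (h1 α).trans (le_abs_self _)
  calc ∫ α in u..(u + 1), Phi w g H X D N α ^ 2
      ≤ ∫ α in u..(u + 1), ((D N : ℝ) ^ (3 * H.card)) *
          ∑ t ∈ TT H (D N), FF (wt w g H t) H N (X α) ^ 2 :=
        intervalIntegral.integral_mono (by linarith) hP (hs.const_mul _) h1
    _ = ((D N : ℝ) ^ (3 * H.card)) *
          ∑ t ∈ TT H (D N), ∫ α in u..(u + 1), FF (wt w g H t) H N (X α) ^ 2 := by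
        rw [intervalIntegral.integral_const_mul, intervalIntegral.integral_finsetSum
          fun t _ => hi t]
    _ ≤ ((D N : ℝ) ^ (3 * H.card)) * ∑ _t ∈ TT H (D N), R := by
        refine mul_le_mul_of_nonneg_left (Finset.sum_le_sum fun t _ => ?_) (by positivity)
        exact hR _ (abs_wt_le hw g H t)
    _ = ((D N : ℝ) ^ (3 * H.card)) ^ 2 * R := by
        rw [Finset.sum_const, card_TT, nsmul_eq_mul]
        push_cast
        ring

end RateUAux

open RateUAux

theorem rate_u {X : ℝ → SS} (hX : Measurable X) {δ : ℕ → ℝ} (h0 : ∀ p, 0 ≤ δ p)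
    (h1 : ∀ p, δ p ≤ 1)
    (hP : Tendsto (fun N : ℕ => mass δ N / Real.log (lam N) ^ 2) atTop atTop)
    (hm : ∀ H : Finset ℕ, H.Nonempty → ∃ c : ℝ, 0 < c ∧ ∃ B : ℝ, 0 < B ∧ ∀ᶠ N : ℕ in atTop,
      ∀ w : ℕ → ℝ, (∀ n, |w n| ≤ 1) → ∀ u : ℝ,
        ∫ α in u..(u + 1), FF w H N (X α) ^ 2 ≤ B * Real.exp (-(4 * c * Real.sqrt (mass δ N))))
    {g : ℕ → ℤˣ} (hg : MultS g) {w : ℕ → ℝ} (hw : ∀ n, |w n| ≤ 1) {H : Finset ℕ}
    (hH : H.Nonempty) :
    ∃ c : ℝ, 0 < c ∧ ∀ᵐ α : ℝ, ∀ᶠ N : ℕ in atTop, ∀ f : ℕ → ℤˣ, MultS f →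
      (∀ p : ℕ, p.Prime → f p = g p * X α p) →
      |LA (fun n => w n * prodSeq f H n) N| ≤ Real.exp (-(c * Real.sqrt (mass δ N))) := by
  classical
  obtain ⟨c, hc, B, hB, hev⟩ := hm H hH
  obtain ⟨C, hC, htail⟩ := sqf_tail H
  have hk : 1 ≤ H.card := hH.card_pos
  have hk1 : (1:ℝ) ≤ H.card := by exact_mod_cast hk
  have hk0 : (0:ℝ) < H.card := by linarith
  set η : ℝ := c / (3 * H.card) with hη
  have hη0 : 0 < η := by positivity
  have hηk : 6 * H.card * η = 2 * c := by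
    rw [hη]
    field_simp
    ring
  have hηc : 2 * η ≤ c := by
    nlinarith
  have hmom : ∀ᶠ N : ℕ in atTop, ∀ u : ℝ, ∫ α in u..(u + 1), Phi w g H X (DN η δ) N α ^ 2 ≤
      (4 ^ (3 * H.card) * B) * Real.exp (-(4 * η * Real.sqrt (mass δ N))) := by
    filter_upwards [hev] with N hN u
    refine (Phi_sq_le hw g H hX (DN η δ) fun w hw => hN w hw u).trans ?_
    have h2 : 0 ≤ Real.sqrt (mass δ N) := Real.sqrt_nonneg _
    have h3 : ((DN η δ N : ℝ) ^ (3 * H.card)) ^ 2 ≤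
        4 ^ (3 * H.card) * Real.exp (2 * c * Real.sqrt (mass δ N)) := by
      calc ((DN η δ N : ℝ) ^ (3 * H.card)) ^ 2
          ≤ ((2 * Real.exp (η * Real.sqrt (mass δ N))) ^ (3 * H.card)) ^ 2 := by
            have := DN_le hη0.le δ N
            gcongr
        _ = 4 ^ (3 * H.card) * Real.exp (η * Real.sqrt (mass δ N)) ^ (6 * H.card) := by
            rw [← pow_mul, mul_pow]
            congr 1
            · rw [show (3 * H.card * 2) = 2 * (3 * H.card) by ring, pow_mul]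
              norm_num
            · congr 1
              ring
        _ = 4 ^ (3 * H.card) * Real.exp (2 * c * Real.sqrt (mass δ N)) := by
            rw [← Real.exp_nat_mul]
            congr 2
            push_cast
            rw [← hηk]
            ring
    calc ((DN η δ N : ℝ) ^ (3 * H.card)) ^ 2 *
          (B * Real.exp (-(4 * c * Real.sqrt (mass δ N))))
        ≤ (4 ^ (3 * H.card) * Real.exp (2 * c * Real.sqrt (mass δ N))) *
          (B * Real.exp (-(4 * c * Real.sqrt (mass δ N)))) :=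
          mul_le_mul_of_nonneg_right h3 (by positivity)
      _ = (4 ^ (3 * H.card) * B) * Real.exp (-(2 * c * Real.sqrt (mass δ N))) := by
          have : Real.exp (2 * c * Real.sqrt (mass δ N)) *
              Real.exp (-(4 * c * Real.sqrt (mass δ N))) =
              Real.exp (-(2 * c * Real.sqrt (mass δ N))) := by
            rw [← Real.exp_add]
            congr 1
            ring
          rw [← this]
          ring
      _ ≤ (4 ^ (3 * H.card) * B) * Real.exp (-(4 * η * Real.sqrt (mass δ N))) := by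
          refine mul_le_mul_of_nonneg_left (Real.exp_le_exp.2 (neg_le_neg ?_)) (by positivity)
          exact mul_le_mul_of_nonneg_right (by linarith) h2
  obtain ⟨c', hc', hae⟩ := ae_u
    (U := fun α => {u : ℕ → ℝ | ∃ f : ℕ → ℤˣ, MultS f ∧
      (∀ p : ℕ, p.Prime → f p = g p * X α p) ∧ u = fun n => w n * prodSeq f H n})
    (Φ := Phi w g H X (DN η δ)) (measurable_Phi w g H hX (DN η δ))
    (fun N => by
      have h2 : ∀ t : H → ℕ, ∃ b : ℝ, ∀ x : SS, |FF (wt w g H t) H N x| ≤ b := fun t =>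
        FF_abs_le (abs_wt_le hw g H t) H N
      choose b hb using h2
      refine ⟨∑ t ∈ TT H (DN η δ N), b t, fun α => ?_⟩
      unfold Phi
      rw [abs_of_nonneg (Finset.sum_nonneg fun t _ => abs_nonneg _)]
      exact Finset.sum_le_sum fun t _ => hb t (X α))
    h0 h1 hP hη0 (B := 4 ^ (3 * H.card) * B) (by positivity) hC hmom
    (by
      filter_upwards [htail, eventually_ge_atTop 2] with N hN hN2 α u hu
      obtain ⟨f, hf, hfp, rfl⟩ := hu
      refine (LA_le_tuples hw hf hg hfp H (DN η δ N) hN2).trans ?_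
      refine add_le_add (le_abs_self _) ((hN (DN η δ N) (DN_pos η δ N)).trans ?_)
      rw [Real.exp_neg, ← div_eq_mul_inv]
      exact div_le_div_of_nonneg_left hC.le (Real.exp_pos _) (le_DN η δ N))
    (by
      intro α u hu n
      obtain ⟨f, hf, hfp, rfl⟩ := hu
      rw [abs_mul, abs_prodSeq, mul_one]
      exact hw n)
  refine ⟨c', hc', ?_⟩
  filter_upwards [hae] with α hα
  filter_upwards [hα] with N hN f hf hfp
  exact hN _ ⟨f, hf, hfp, rfl⟩

end Pool.Agent.Lib.P4a7640K
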