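import Mathlib
import Pool.Agent.Lib.P4a7640K.FinK
import Pool.Agent.Lib.P4a7640K.RateU
import Pool.Agent.Lib.P4a7640K.WK
import Pool.Agent.Lib.P4a7640K.Refl

/-!
# The general form and the special case, for real frequencies
-/

open MeasureTheory Filter Topology

namespace Pool.Agent.Lib.P4a7640K

open Pool.Agent.Lib.P4a7640 Pool.Agent.Lib.P4a7640M Pool.Agent.Lib.P4a7640Y Pool.Agent.Lib.P4a7640Z

/-- the sets after reflection and restriction to the primes -/
noncomputable def AR (a : ℕ → ℝ) (A : ℕ → Set ℝ) (p : ℕ) : Set ℝ :=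
  open Classical in if p.Prime then (if a p < 0 then reflS (A p) else A p) else ∅

lemma kint_AR {k : ℕ} {a : ℕ → ℝ} {A : ℕ → Set ℝ} (hA : ∀ p : ℕ, p.Prime → KInt k (A p)) (p : ℕ) :
    KInt (k + 1) (AR a A p) := by
  unfold AR
  split_ifs with h1 h2
  · exact kint_refl (hA p h1)
  · obtain ⟨s, hs1, hs2, hs3⟩ := hA p h1
    exact ⟨s, by omega, hs2, hs3⟩
  · exact kint_empty _

lemma dl_AR {k : ℕ} {a : ℕ → ℝ} {A : ℕ → Set ℝ} (hA : ∀ p : ℕ, p.Prime → KInt k (A p)) {p : ℕ}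
    (hp : p.Prime) : dl (AR a A p) = dl (A p) := by
  unfold AR
  rw [if_pos hp]
  split_ifs
  · exact dl_refl (hA p hp).meas
  · rfl

open Classical in
lemma xr_AR (a : ℕ → ℝ) (A : ℕ → Set ℝ) (α : ℝ) {p : ℕ} (hp : p.Prime) :
    xr (AR a A) (fun p => |a p|) α p = if Int.fract (α * a p) ∈ A p then -1 else 1 := by
  unfold xr AR
  rw [if_pos hp]
  beta_reduce
  by_cases h : a p < 0
  · rw [if_pos h, abs_of_neg h, mul_neg]
    have h1 := mem_reflS (A p) (α * a p)
    by_cases h2 : Int.fract (α * a p) ∈ A p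
    · rw [if_pos h2, if_pos (h1.mpr h2)]
    · rw [if_neg h2, if_neg fun h3 => h2 (h1.mp h3)]
  · rw [if_neg h, abs_of_nonneg (not_lt.mp h)]

/-- The general form for real frequencies. -/
theorem general_r (g : ℕ → ℤˣ) (hg : MultS g) (k : ℕ) (K κ : ℝ) (a : ℕ → ℝ) (A : ℕ → Set ℝ)
    (hκ : 0 < κ)
    (hK : ∀ (x : ℝ) (N : ℕ),
      ({p : ℕ | p.Prime ∧ p ≤ N ∧ x ≤ a p ∧ a p < x + 1}.ncard : ℝ) ≤ K * (N : ℝ) ^ (1 - κ))
    (hA : ∀ p : ℕ, p.Prime → KInt k (A p)) (M : ℕ → ℝ)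
    (hMdef : ∀ N, M N = ∑ p ∈ (Finset.Icc 1 N).filter Nat.Prime, dl (A p) / p)
    (hM : Tendsto (fun N : ℕ => M N / Real.log (Real.log (Real.log N)) ^ 2) atTop atTop)
    {w : ℕ → ℝ} {C : ℝ} (hw : ∀ n, |w n| ≤ C) :
    ∃ c : Finset ℕ → ℝ, (∀ H, 0 < c H) ∧ ∀ᵐ α : ℝ, ∀ x : ℕ → ℤˣ,
      (∀ p : ℕ, p.Prime → (x p = -1 ↔ Int.fract (α * a p) ∈ A p)) →
      (∀ f : ℕ → ℤˣ, MultS f →
        (∃ q : ℕ, 0 < q ∧ ∃ χ : DirichletCharacter ℂ q,
          ¬ Tendsto (fun N => DD (fun p => f p * (g p * x p)) χ 0 N) atTop atTop) →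
        Aperiodic f ∧ FairSystem f ∧
          ∀ F : (ℤ → SignType) → ℝ, Continuous F →
            Tendsto (fun N => muW w f N F - LA w N * EE F) atTop (𝓝 0)) ∧
      ∀ H : Finset ℕ, H.Nonempty → ∀ᶠ N : ℕ in atTop, ∀ f : ℕ → ℤˣ, MultS f →
        (∀ p : ℕ, p.Prime → f p = g p * x p) →
        |LA (fun n => w n * prodSeq f H n) N| ≤ Real.exp (-(c H * Real.sqrt (M N))) := by
  classical
  obtain ⟨hK0, hcnt⟩ := cnt_abs hK
  set X : ℝ → SS := xr (AR a A) (fun p => |a p|) with hX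
  have hkA := kint_AR (a := a) hA
  have hXm : Measurable X := measurable_xr (fun p => (hkA p).meas) _
  set δ : ℕ → ℝ := fun p => dl (AR a A p) with hδ
  have hδ0 : ∀ p, 0 ≤ δ p := fun p => dl_nonneg _
  have hδ1 : ∀ p, δ p ≤ 1 := fun p => dl_le_one _
  have hmass : ∀ N, mass δ N = M N := by
    intro N
    rw [hMdef]
    unfold mass
    refine Finset.sum_congr rfl fun p hp => ?_
    rw [hδ]
    show dl (AR a A p) / p = _
    rw [dl_AR hA (Finset.mem_filter.mp hp).2]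
  have hP : Tendsto (fun N : ℕ => mass δ N / Real.log (lam N) ^ 2) atTop atTop := by
    refine hM.congr fun N => ?_
    rw [hmass]
    rfl
  have hmom : ∀ H : Finset ℕ, H.Nonempty → ∃ c : ℝ, 0 < c ∧ ∃ B : ℝ, 0 < B ∧ ∀ᶠ N : ℕ in atTop,
      ∀ w : ℕ → ℝ, (∀ n, |w n| ≤ 1) → ∀ u : ℝ,
        ∫ α in u..(u + 1), FF w H N (X α) ^ 2 ≤ B * Real.exp (-(4 * c * Real.sqrt (mass δ N))) :=
    fun H hH => moment_r (K := 3 * K + 1) (κ := min κ 1) (by linarith) (lt_min hκ one_pos)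
      (min_le_right _ _) hkA (fun p => abs_nonneg _) hcnt hP hH
  have hmain := main_of_moment_x hXm hδ0 hδ1 hP hmom g hg hw
  -- the rate
  set C' : ℝ := |C| + 1 with hC'
  have hC'0 : 0 < C' := by positivity
  have hw' : ∀ n, |w n / C'| ≤ 1 := by
    intro n
    rw [abs_div, abs_of_pos hC'0, div_le_one hC'0]
    have := hw n
    linarith [le_abs_self C]
  have hrate : ∀ H : Finset ℕ, ∃ c : ℝ, 0 < c ∧ (H.Nonempty → ∀ᵐ α : ℝ, ∀ᶠ N : ℕ in atTop,
      ∀ f : ℕ → ℤˣ, MultS f → (∀ p : ℕ, p.Prime → f p = g p * X α p) →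
      |LA (fun n => w n / C' * prodSeq f H n) N| ≤ Real.exp (-(c * Real.sqrt (mass δ N)))) := by
    intro H
    by_cases hH : H.Nonempty
    · obtain ⟨c, hc, h⟩ := rate_u hXm hδ0 hδ1 hP hmom hg hw' hH
      exact ⟨c, hc, fun _ => h⟩
    · exact ⟨1, one_pos, fun h => absurd h hH⟩
  choose c hc hcr using hrate
  have hcr' : ∀ᵐ α : ℝ, ∀ H : Finset ℕ, H.Nonempty → ∀ᶠ N : ℕ in atTop,
      ∀ f : ℕ → ℤˣ, MultS f → (∀ p : ℕ, p.Prime → f p = g p * X α p) →
      |LA (fun n => w n / C' * prodSeq f H n) N| ≤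
        Real.exp (-(c H * Real.sqrt (mass δ N))) := by
    rw [ae_all_iff]
    intro H
    by_cases hH : H.Nonempty
    · filter_upwards [hcr H hH] with α hα _
      exact hα
    · exact Eventually.of_forall fun α h => absurd h hH
  refine ⟨fun H => c H / 2, fun H => half_pos (hc H), ?_⟩
  filter_upwards [hmain, hcr'] with α h1 h2 x hx
  have hxX : ∀ p : ℕ, p.Prime → x p = X α p := by
    intro p hp
    rw [hX, xr_AR a A α hp]
    by_cases h3 : Int.fract (α * a p) ∈ A p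
    · rw [if_pos h3]
      exact (hx p hp).mpr h3
    · rw [if_neg h3]
      rcases Int.units_eq_one_or (x p) with h4 | h4
      · exact h4
      · exact absurd ((hx p hp).mp h4) h3
  constructor
  · intro f hf hfp
    apply h1 f hf
    obtain ⟨q, hq, χ, hnot⟩ := hfp
    refine ⟨q, hq, χ, fun hcon => hnot (hcon.congr fun N => ?_)⟩
    unfold DD
    refine Finset.sum_congr rfl fun p hp => ?_
    simp only [hxX p (Finset.mem_filter.mp hp).2]
  · intro H hH
    have h6 : ∀ᶠ N : ℕ in atTop, Real.log C' ≤ c H / 2 * Real.sqrt (mass δ N) :=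
      ((Real.tendsto_sqrt_atTop.comp (tendsto_mass hP)).const_mul_atTop
        (half_pos (hc H))).eventually_ge_atTop _
    filter_upwards [h2 H hH, h6] with N h7 h8 f hf hfp
    have h4 : LA (fun n => w n * prodSeq f H n) N =
        C' * LA (fun n => w n / C' * prodSeq f H n) N := by
      rw [← LA_const_mul]
      congr 1
      funext n
      field_simp
    have h9 := h7 f hf fun p hp => by rw [hfp p hp, hxX p hp]
    rw [h4, abs_mul, abs_of_pos hC'0, ← hmass]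
    calc C' * |LA (fun n => w n / C' * prodSeq f H n) N|
        ≤ Real.exp (c H / 2 * Real.sqrt (mass δ N)) *
          Real.exp (-(c H * Real.sqrt (mass δ N))) := by
          apply mul_le_mul _ h9 (abs_nonneg _) (Real.exp_pos _).le
          rw [← Real.log_le_iff_le_exp hC'0]
          exact h8
      _ = Real.exp (-(c H / 2 * Real.sqrt (mass δ N))) := by
          rw [← Real.exp_add]
          congr 1
          ring

/-- The mass of all primes from below. -/
lemma mass_ge : ∀ᶠ N : ℕ in atTop, Real.log (Real.log N) / 4 ≤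
    ∑ p ∈ (Finset.Icc 1 N).filter Nat.Prime, (1 / 2 : ℝ) / p := by
  obtain ⟨C, hC, hlow⟩ := P4a7640L.mertens_lower
  have hlam : Tendsto (fun N : ℕ => Real.log (Real.log (N:ℝ))) atTop atTop :=
    Real.tendsto_log_atTop.comp (Real.tendsto_log_atTop.comp tendsto_natCast_atTop_atTop)
  filter_upwards [hlam.eventually_ge_atTop (2 * C + 2), eventually_ge_atTop 3] with N h4 hN
  set x := Real.log (Real.log (N:ℝ)) with hx
  have hx0 : 0 < x := by linarith
  have hs := hlow 0 x le_rfl hx0.le ((Finset.Icc 1 N).filter Nat.Prime) (by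
    intro p hp _ hpx
    rw [Finset.mem_filter, Finset.mem_Icc]
    refine ⟨⟨hp.one_lt.le, ?_⟩, hp⟩
    by_contra hcon
    push Not at hcon
    have hN0 : (0:ℝ) < N := by exact_mod_cast (show 0 < N by omega)
    have h6 : Real.log N ≤ Real.log p := Real.log_le_log hN0 (by exact_mod_cast hcon.le)
    have h7 : 0 < Real.log N := Real.log_pos (by exact_mod_cast (show 1 < N by omega))
    have h8 : x ≤ P4a7640L.ll p := Real.log_le_log h7 h6
    linarith)
  rw [neg_zero, Real.exp_zero, mul_one, sub_zero] at hs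
  have hsum : ∑ p ∈ (Finset.Icc 1 N).filter Nat.Prime, (1 / 2 : ℝ) / (p:ℝ) =
      1 / 2 * ∑ p ∈ (Finset.Icc 1 N).filter Nat.Prime, (1:ℝ) / p := by
    rw [Finset.mul_sum]
    refine Finset.sum_congr rfl fun p _ => ?_
    ring
  rw [hsum]
  linarith

/-- The special case `(-1)^⌊α a_p⌋` for a separated sequence. -/
theorem special_r (g : ℕ → ℤˣ) (hg : MultS g) (a : ℕ → ℝ) (d : ℝ) (hd : 0 < d)
    (hsep : ∀ p q : ℕ, p.Prime → q.Prime → p ≠ q → d ≤ |a p - a q|) :
    ∃ c : Finset ℕ → ℝ, (∀ H, 0 < c H) ∧ ∀ᵐ α : ℝ, ∀ f : ℕ → ℤˣ, MultS f →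
      (∀ p : ℕ, p.Prime → f p = g p * (-1) ^ ⌊α * a p⌋) → Aperiodic f ∧ FairSystem f ∧
        ∀ H : Finset ℕ, H.Nonempty → ∀ᶠ N : ℕ in atTop, |LA (prodSeq f H) N| ≤
          Real.exp (-(c H * Real.sqrt (Real.log (Real.log N)))) := by
  have hsep' : ∀ p q : ℕ, p.Prime → q.Prime → p ≠ q → 1 ≤ |a p / d - a q / d| := by
    intro p q hp hq hne
    rw [← sub_div, abs_div, abs_of_pos hd, le_div_iff₀ hd, one_mul]
    exact hsep p q hp hq hne
  have hM : Tendsto (fun N : ℕ => (∑ p ∈ (Finset.Icc 1 N).filter Nat.Prime,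
      dl (Set.Ico (1 / 2 : ℝ) 1) / p) / Real.log (Real.log (Real.log N)) ^ 2) atTop atTop := by
    rw [dl_half]
    exact mass_primes (by norm_num)
  obtain ⟨c, hc, h1⟩ := general_r g hg 1 1 1 (fun p => a p / d) (fun _ => Set.Ico (1 / 2 : ℝ) 1)
    one_pos (fun x N => cnt_of_sep hsep' x N) (fun _ _ => kint_half) _ (fun _ => rfl) hM
    (w := fun _ => 1) (C := 1) (fun n => by simp)
  have hd2 : d / 2 ≠ 0 := (half_pos hd).ne'
  refine ⟨fun H => c H / 2, fun H => half_pos (hc H), ?_⟩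
  filter_upwards [ae_scale hd2 h1] with α hα f hf hfp
  obtain ⟨h2, h3⟩ := hα (fun p => (-1) ^ ⌊α * a p⌋) (fun p _ => by
    have h3 : d / 2 * α * (a p / d) = (α * a p) / 2 := by
      field_simp
    rw [h3]
    exact neg_one_floor_r _)
  have h4 := h2 f hf ⟨1, one_pos, 1, not_tendsto_DD_one fun p hp => by
    rw [hfp p hp, Int.units_mul_self]⟩
  refine ⟨h4.1, h4.2.1, fun H hH => ?_⟩
  filter_upwards [h3 H hH, mass_ge] with N h5 h6
  have h7 := h5 f hf hfp
  have h8 : (fun n => (fun _ : ℕ => (1:ℝ)) n * prodSeq f H n) = prodSeq f H := by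
    funext n
    exact one_mul _
  rw [h8] at h7
  refine h7.trans (Real.exp_le_exp.mpr ?_)
  have h9 : Real.sqrt (Real.log (Real.log N)) / 2 ≤
      Real.sqrt (∑ p ∈ (Finset.Icc 1 N).filter Nat.Prime, dl (Set.Ico (1 / 2 : ℝ) 1) / p) := by
    rw [dl_half]
    have h10 : Real.sqrt (Real.log (Real.log N)) / 2 = Real.sqrt (Real.log (Real.log N) / 4) := by
      rw [Real.sqrt_div' _ (by norm_num : (0:ℝ) ≤ 4), show (4:ℝ) = 2 ^ 2 by norm_num,
        Real.sqrt_sq (by norm_num)]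
    rw [h10]
    exact Real.sqrt_le_sqrt h6
  have h11 := mul_le_mul_of_nonneg_left h9 (hc H).le
  have h12 : c H / 2 * Real.sqrt (Real.log (Real.log N)) =
      c H * (Real.sqrt (Real.log (Real.log N)) / 2) := by ring
  show -(c H * _) ≤ -(c H / 2 * _)
  linarith

end Pool.Agent.Lib.P4a7640K
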